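import Mathlib
import Pool.Agent.Helper112.MultLS

/-!
# Moments of prime sums over primitive characters

High moments of `∑_{p ∈ S} c_p χ(p)`, `S` a finite set of primes, over all primitive Dirichlet
characters of conductor at most `Q`, by the multiplicative large sieve; the number of characters for
which the sum is large.
-/

set_option autoImplicit false

open Finset
open scoped Classical

namespace Pool.Agent.TH933.TE

/-- the coefficients of the `k`-th power -/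
noncomputable def al (S : Finset ℕ) (k : ℕ) (c : ℕ → ℂ) (n : ℕ) : ℂ :=
  ∑ d ∈ (Fintype.piFinset (fun _ : Fin k => S)).filter (fun d => ∏ i, d i = n), ∏ i, c (d i)

theorem prod_mem' {S : Finset ℕ} {M : ℕ} (hS : ∀ p ∈ S, 1 ≤ p ∧ p ≤ M) (k : ℕ) (d : Fin k → ℕ)
    (hd : d ∈ Fintype.piFinset (fun _ : Fin k => S)) : ∏ i, d i ∈ Icc 1 (M ^ k) := by
  rw [Fintype.mem_piFinset] at hd
  rw [mem_Icc]
  constructor
  · exact Finset.one_le_prod' (fun i _ => (hS _ (hd i)).1)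
  · calc ∏ i, d i ≤ ∏ _i : Fin k, M := Finset.prod_le_prod' (fun i _ => (hS _ (hd i)).2)
      _ = M ^ k := by simp

theorem pow_expand {S : Finset ℕ} {M : ℕ} (hS : ∀ p ∈ S, 1 ≤ p ∧ p ≤ M) (k : ℕ) (c : ℕ → ℂ)
    (f : ℕ) (χ : DirichletCharacter ℂ f) :
    (∑ m ∈ S, c m * χ (m : ZMod f)) ^ k
      = ∑ n ∈ Icc 1 (M ^ k), al S k c n * χ (n : ZMod f) := by
  rw [Finset.sum_pow']
  rw [← Finset.sum_fiberwise_of_maps_to (g := fun d : Fin k → ℕ => ∏ i, d i)
    (fun d hd => prod_mem' hS k d hd)]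
  refine Finset.sum_congr rfl (fun n _ => ?_)
  rw [al, Finset.sum_mul]
  refine Finset.sum_congr rfl (fun d hd => ?_)
  rw [Finset.mem_filter] at hd
  rw [← hd.2, Finset.prod_mul_distrib]
  push_cast
  rw [map_prod]

/-- a number has at most `k!` ordered factorizations into `k` primes -/
theorem card_fiber_le {S : Finset ℕ} (hS : ∀ p ∈ S, p.Prime) (k n : ℕ) :
    ((Fintype.piFinset (fun _ : Fin k => S)).filter (fun d => ∏ i, d i = n)).card ≤ k.factorial := by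
  set F := (Fintype.piFinset (fun _ : Fin k => S)).filter (fun d => ∏ i, d i = n) with hF
  have hperm : ∀ d ∈ F, (List.ofFn d).Perm n.primeFactorsList := by
    intro d hd
    rw [hF, mem_filter, Fintype.mem_piFinset] at hd
    refine Nat.primeFactorsList_unique ?_ ?_
    · rw [List.prod_ofFn]; exact hd.2
    · intro p hp
      rw [List.mem_ofFn] at hp
      obtain ⟨i, rfl⟩ := hp
      exact hS _ (hd.1 i)
  rcases F.eq_empty_or_nonempty with h0 | ⟨d0, hd0⟩
  · rw [h0]; simp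
  have hlen : n.primeFactorsList.length = k := by
    have := (hperm d0 hd0).length_eq
    rw [List.length_ofFn] at this
    exact this.symm
  have h1 : F.card ≤ (n.primeFactorsList.permutations.toFinset).card := by
    refine Finset.card_le_card_of_injOn (fun d => List.ofFn d) ?_ ?_
    · intro d hd
      rw [Finset.mem_coe] at hd
      simp only [Finset.mem_coe, List.mem_toFinset, List.mem_permutations]
      exact hperm d hd
    · intro d _ d' _ h
      exact List.ofFn_injective h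
  refine h1.trans ((List.toFinset_card_le _).trans ?_)
  rw [List.length_permutations, hlen]

theorem sum_al_sq {S : Finset ℕ} {M : ℕ} (hS : ∀ p ∈ S, p.Prime ∧ p ≤ M) (k : ℕ) (c : ℕ → ℂ) :
    ∑ n ∈ Icc 1 (M ^ k), ‖al S k c n‖ ^ 2 ≤ (k.factorial : ℝ) * (∑ m ∈ S, ‖c m‖ ^ 2) ^ k := by
  have h1 : ∀ n ∈ Icc 1 (M ^ k), ‖al S k c n‖ ^ 2
      ≤ (k.factorial : ℝ) * ∑ d ∈ (Fintype.piFinset (fun _ : Fin k => S)).filter
        (fun d => ∏ i, d i = n), ∏ i, ‖c (d i)‖ ^ 2 := by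
    intro n _
    rw [al]
    have h0 : ‖∑ d ∈ (Fintype.piFinset (fun _ : Fin k => S)).filter (fun d => ∏ i, d i = n),
        ∏ i, c (d i)‖ ≤ ∑ d ∈ (Fintype.piFinset (fun _ : Fin k => S)).filter
        (fun d => ∏ i, d i = n), ∏ i, ‖c (d i)‖ := by
      refine (norm_sum_le _ _).trans (Finset.sum_le_sum fun d _ => ?_)
      rw [norm_prod]
    refine (pow_le_pow_left₀ (norm_nonneg _) h0 2).trans ?_
    refine (sq_sum_le_card_mul_sum_sq).trans ?_
    have h2 : ∑ d ∈ (Fintype.piFinset (fun _ : Fin k => S)).filter (fun d => ∏ i, d i = n),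
        (∏ i, ‖c (d i)‖) ^ 2
        = ∑ d ∈ (Fintype.piFinset (fun _ : Fin k => S)).filter (fun d => ∏ i, d i = n),
        ∏ i, ‖c (d i)‖ ^ 2 := by
      refine Finset.sum_congr rfl (fun d _ => ?_)
      rw [Finset.prod_pow]
    rw [h2]
    refine mul_le_mul_of_nonneg_right ?_ ?_
    · exact_mod_cast card_fiber_le (fun p hp => (hS p hp).1) k n
    · exact Finset.sum_nonneg (fun d _ => Finset.prod_nonneg (fun i _ => sq_nonneg _))
  refine (Finset.sum_le_sum h1).trans (le_of_eq ?_)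
  rw [← Finset.mul_sum]
  congr 1
  rw [Finset.sum_fiberwise_of_maps_to (g := fun d : Fin k → ℕ => ∏ i, d i)
    (fun d hd => prod_mem' (fun p hp => ⟨(hS p hp).1.one_lt.le, (hS p hp).2⟩) k d hd)]
  exact (Finset.sum_pow' S (fun m => ‖c m‖ ^ 2) k).symm

/-- the `2k`-th moment over all primitive characters -/
theorem moment {S : Finset ℕ} {M : ℕ} (hS : ∀ p ∈ S, p.Prime ∧ p ≤ M) (Q k : ℕ) (c : ℕ → ℂ) :
    ∑ f ∈ Icc 1 Q, ∑ χ ∈ (univ : Finset (DirichletCharacter ℂ f)).filter (fun χ => χ.IsPrimitive),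
        ‖∑ m ∈ S, c m * χ (m : ZMod f)‖ ^ (2 * k)
      ≤ 6 * ((M : ℝ) ^ k + (Q : ℝ) ^ 2) * ((k.factorial : ℝ) * (∑ m ∈ S, ‖c m‖ ^ 2) ^ k) := by
  have hLS := Pool.Agent.Helper112.mult_large_sieve (M ^ k) Q (al S k c)
  push_cast at hLS
  refine le_trans ?_ (hLS.trans (mul_le_mul_of_nonneg_left (sum_al_sq hS k c) (by positivity)))
  refine Finset.sum_le_sum (fun f hf => ?_)
  rw [mem_Icc] at hf
  have htot : (1 : ℝ) ≤ (f : ℝ) / (Nat.totient f : ℝ) := by
    rw [one_le_div (by exact_mod_cast Nat.totient_pos.mpr hf.1)]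
    exact_mod_cast Nat.totient_le f
  refine le_trans (le_of_eq ?_) (le_mul_of_one_le_left
    (Finset.sum_nonneg (fun _ _ => sq_nonneg _)) htot)
  refine Finset.sum_congr rfl (fun χ _ => ?_)
  rw [← pow_expand (fun p hp => ⟨(hS p hp).1.one_lt.le, (hS p hp).2⟩), norm_pow, ← pow_mul,
    mul_comm k 2]

/-- the primitive characters of conductor at most `Q` for which the sum exceeds `δ` -/
noncomputable def bad (Q : ℕ) (S : Finset ℕ) (c : ℕ → ℂ) (δ : ℝ) :
    Finset (Σ q : ℕ, DirichletCharacter ℂ q) :=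
  (Icc 1 Q).sigma fun q => (univ : Finset (DirichletCharacter ℂ q)).filter
    (fun χ => χ.IsPrimitive ∧ δ < ‖∑ m ∈ S, c m * χ (m : ZMod q)‖)

theorem mem_bad {Q : ℕ} {S : Finset ℕ} {c : ℕ → ℂ} {δ : ℝ} {q : ℕ} {χ : DirichletCharacter ℂ q} :
    (⟨q, χ⟩ : Σ q : ℕ, DirichletCharacter ℂ q) ∈ bad Q S c δ ↔
      (1 ≤ q ∧ q ≤ Q) ∧ χ.IsPrimitive ∧ δ < ‖∑ m ∈ S, c m * χ (m : ZMod q)‖ := by
  rw [bad, Finset.mem_sigma, mem_Icc, mem_filter]
  simp

theorem bad_card {S : Finset ℕ} {M : ℕ} (hS : ∀ p ∈ S, p.Prime ∧ p ≤ M) (Q k : ℕ) (c : ℕ → ℂ)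
    {δ : ℝ} (hδ : 0 < δ) :
    ((bad Q S c δ).card : ℝ) * δ ^ (2 * k) ≤
      6 * ((M : ℝ) ^ k + (Q : ℝ) ^ 2) * ((k.factorial : ℝ) * (∑ m ∈ S, ‖c m‖ ^ 2) ^ k) := by
  refine le_trans ?_ (moment hS Q k c)
  rw [bad, Finset.card_sigma, Nat.cast_sum, Finset.sum_mul]
  refine Finset.sum_le_sum fun q _ => ?_
  rw [← nsmul_eq_mul, ← Finset.sum_const]
  refine (Finset.sum_le_sum (f := fun _ => δ ^ (2 * k))
    (g := fun χ : DirichletCharacter ℂ q => ‖∑ m ∈ S, c m * χ (m : ZMod q)‖ ^ (2 * k))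
    fun χ hχ => ?_).trans ?_
  · rw [mem_filter] at hχ
    exact pow_le_pow_left₀ hδ.le hχ.2.2.le _
  · refine Finset.sum_le_sum_of_subset_of_nonneg ?_ fun _ _ _ => by positivity
    intro χ hχ
    rw [mem_filter] at hχ ⊢
    exact ⟨hχ.1, hχ.2.1⟩

end Pool.Agent.TH933.TE
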