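import Pool.Agent.TH933.TE.E1

/-!
# Dyadic blocks: the number of characters with a large block sum
-/

set_option autoImplicit false

open Finset Real

namespace Pool.Agent.TH933.TE

/-- dyadic block of the primes above `y` -/
noncomputable def Pb (y : ℝ) (j : ℕ) : Finset ℕ :=
  (Finset.Ico (2 ^ j) (2 ^ (j + 1))).filter (fun p => p.Prime ∧ y < (p : ℝ))

lemma mem_Pb {y : ℝ} {j p : ℕ} :
    p ∈ Pb y j ↔ (2 ^ j ≤ p ∧ p < 2 ^ (j + 1)) ∧ p.Prime ∧ y < (p : ℝ) := by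
  rw [Pb, mem_filter, mem_Ico]

lemma card_Pb (y : ℝ) (j : ℕ) : ((Pb y j).card : ℝ) ≤ 2 ^ j := by
  have h : (Pb y j).card ≤ 2 ^ j := by
    refine (card_filter_le _ _).trans ?_
    rw [Nat.card_Ico, pow_succ]; omega
  exact_mod_cast h

/-- the coefficients at `s` -/
noncomputable def cf (b : ℕ → ℂ) (s : ℂ) (p : ℕ) : ℂ := b p * (p : ℂ) ^ (-s)

lemma norm_cf_le {b : ℕ → ℂ} {B : ℝ} (hb : ∀ p, ‖b p‖ ≤ B) {s : ℂ} (hs : 1 ≤ s.re) {p : ℕ}
    (hp : 1 ≤ p) : ‖cf b s p‖ ≤ B / p := by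
  have hp0 : (0 : ℝ) < p := by exact_mod_cast hp
  have hB : 0 ≤ B := (norm_nonneg _).trans (hb p)
  unfold cf
  rw [norm_mul, Complex.norm_natCast_cpow_of_pos hp, div_eq_mul_inv]
  refine mul_le_mul (hb p) ?_ (by positivity) hB
  rw [← Real.rpow_neg_one, Complex.neg_re]
  exact Real.rpow_le_rpow_of_exponent_le (by exact_mod_cast hp) (by linarith)

lemma sum_cf_sq {b : ℕ → ℂ} {B : ℝ} (hb : ∀ p, ‖b p‖ ≤ B) {s : ℂ} (hs : 1 ≤ s.re) (y : ℝ)
    (j : ℕ) : ∑ p ∈ Pb y j, ‖cf b s p‖ ^ 2 ≤ B ^ 2 / 2 ^ j := by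
  have hB : 0 ≤ B := (norm_nonneg _).trans (hb 0)
  have h2 : (0 : ℝ) < 2 ^ j := by positivity
  have h1 : ∀ p ∈ Pb y j, ‖cf b s p‖ ^ 2 ≤ (B / 2 ^ j) ^ 2 := by
    intro p hp
    rw [mem_Pb] at hp
    refine pow_le_pow_left₀ (norm_nonneg _) ((norm_cf_le hb hs hp.2.1.one_lt.le).trans ?_) 2
    exact div_le_div_of_nonneg_left hB h2 (by exact_mod_cast hp.1.1)
  refine (Finset.sum_le_sum h1).trans ?_
  rw [sum_const, nsmul_eq_mul]
  calc ((Pb y j).card : ℝ) * (B / 2 ^ j) ^ 2 ≤ 2 ^ j * (B / 2 ^ j) ^ 2 :=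
        mul_le_mul_of_nonneg_right (card_Pb y j) (by positivity)
    _ = B ^ 2 / 2 ^ j := by field_simp

lemma Pb_spec (y : ℝ) (j : ℕ) : ∀ p ∈ Pb y j, p.Prime ∧ p ≤ 2 ^ (j + 1) := by
  intro p hp
  rw [mem_Pb] at hp
  exact ⟨hp.2.1, hp.1.2.le⟩

/-- large blocks -/
lemma big_block {b : ℕ → ℂ} {B : ℝ} (hb : ∀ p, ‖b p‖ ≤ B) {s : ℂ} (hs : 1 ≤ s.re) (y : ℝ)
    {j Q : ℕ} (hj : (Q : ℝ) ^ 2 ≤ 2 ^ j) {δ : ℝ} (hδ : 0 < δ) :
    ((bad Q (Pb y j) (cf b s) δ).card : ℝ) ≤ 18 * B ^ 2 / δ ^ 2 := by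
  have h := bad_card (Pb_spec y j) Q 1 (cf b s) hδ
  have h2 : (0 : ℝ) < 2 ^ j := by positivity
  have h3 := sum_cf_sq hb hs y j
  have h4 : (0 : ℝ) ≤ ∑ p ∈ Pb y j, ‖cf b s p‖ ^ 2 := Finset.sum_nonneg fun _ _ => sq_nonneg _
  rw [le_div_iff₀ (by positivity)]
  refine (by simpa using h : _ ≤ _).trans ?_
  have h5 : 6 * ((((2 ^ (j + 1) : ℕ) : ℝ)) + (Q : ℝ) ^ 2) ≤ 18 * 2 ^ j := by
    push_cast
    rw [pow_succ]
    linarith
  push_cast at h5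
  calc 6 * (2 ^ (j + 1) + (Q : ℝ) ^ 2) * ∑ p ∈ Pb y j, ‖cf b s p‖ ^ 2
      ≤ 18 * 2 ^ j * (B ^ 2 / 2 ^ j) := by
        exact mul_le_mul h5 h3 h4 (by positivity)
    _ = 18 * B ^ 2 := by field_simp

/-- small blocks -/
lemma small_block {b : ℕ → ℂ} {B : ℝ} (hb : ∀ p, ‖b p‖ ≤ B) {s : ℂ} (hs : 1 ≤ s.re) (y : ℝ)
    {j Q k : ℕ} (hj : (Q : ℝ) ^ 2 ≤ 2 ^ (j * k)) {δ : ℝ} (hδ : 0 < δ) :
    ((bad Q (Pb y j) (cf b s) δ).card : ℝ) ≤ 12 * (2 * B ^ 2 * k / δ ^ 2) ^ k := by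
  have h := bad_card (Pb_spec y j) Q k (cf b s) hδ
  have h2 : (0 : ℝ) < 2 ^ j := by positivity
  have h3 := sum_cf_sq hb hs y j
  have h4 : (0 : ℝ) ≤ ∑ p ∈ Pb y j, ‖cf b s p‖ ^ 2 := Finset.sum_nonneg fun _ _ => sq_nonneg _
  have h5 : 6 * ((((2 ^ (j + 1) : ℕ) : ℝ)) ^ k + (Q : ℝ) ^ 2) ≤ 12 * (2 ^ k * (2 ^ j) ^ k) := by
    push_cast
    have h6 : ((2 : ℝ) ^ (j + 1)) ^ k = 2 ^ k * (2 ^ j) ^ k := by
      rw [pow_succ, mul_comm, mul_pow]
    have h7 : (Q : ℝ) ^ 2 ≤ 2 ^ k * (2 ^ j) ^ k := by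
      refine hj.trans ?_
      rw [pow_mul]
      exact le_mul_of_one_le_left (by positivity) (one_le_pow₀ (by norm_num))
    rw [h6]
    linarith
  have h8 : (k.factorial : ℝ) ≤ (k : ℝ) ^ k := by exact_mod_cast Nat.factorial_le_pow k
  have h9 : ((bad Q (Pb y j) (cf b s) δ).card : ℝ) * δ ^ (2 * k) ≤ 12 * (2 * B ^ 2 * k) ^ k := by
    refine h.trans ?_
    calc _ ≤ 12 * (2 ^ k * (2 ^ j) ^ k) * ((k : ℝ) ^ k * (B ^ 2 / 2 ^ j) ^ k) := by
          refine mul_le_mul h5 (mul_le_mul h8 (pow_le_pow_left₀ h4 h3 k) (by positivity)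
            (by positivity)) (by positivity) (by positivity)
      _ = 12 * (2 * B ^ 2 * k) ^ k := by
          rw [div_pow, mul_pow, mul_pow]
          field_simp
  rw [div_pow, ← pow_mul, mul_div_assoc', le_div_iff₀ (by positivity)]
  exact h9

/-- the numerical bound for the small blocks -/
lemma small_num {B L A η : ℝ} (hL : Real.exp 1 ≤ L) (hA : 3 ≤ A)
    (hη : 18 / (A - 1) ≤ η / 2) (h1 : 2 * B ^ 2 ≤ L) (h2 : Real.log 12 + 9 * Real.log L ≤ η / 2 * L)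
    {j k : ℕ} (hj : (A - 1) * Real.log L ≤ j * Real.log 2)
    (hk : (k : ℝ) ≤ 2 * L / (j * Real.log 2) + 1) :
    12 * (2 * B ^ 2 * k / (1 / L ^ 3) ^ 2) ^ k ≤ Real.exp (η * L) := by
  have hL0 : 0 < L := (Real.exp_pos _).trans_le hL
  have hL2 : 2.7 ≤ L := by
    have := Real.exp_one_gt_d9
    linarith
  have hl1 : 1 ≤ Real.log L := by rwa [Real.le_log_iff_exp_le hL0]
  have hA1 : 0 < A - 1 := by linarith
  have hjpos : 0 < (j : ℝ) * Real.log 2 := by nlinarith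
  have hk2 : (k : ℝ) ≤ 2 * L / ((A - 1) * Real.log L) + 1 := by
    refine hk.trans ?_
    have : 2 * L / (j * Real.log 2) ≤ 2 * L / ((A - 1) * Real.log L) :=
      div_le_div_of_nonneg_left (by positivity) (by nlinarith) hj
    linarith
  have hkL : (k : ℝ) ≤ L ^ 2 := by
    have h3 : 2 * L / ((A - 1) * Real.log L) ≤ L := by
      rw [div_le_iff₀ (by nlinarith)]
      have h4 : 2 ≤ (A - 1) * Real.log L := by nlinarith
      nlinarith
    nlinarith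
  have he : 2 * B ^ 2 * k / (1 / L ^ 3) ^ 2 = 2 * B ^ 2 * k * L ^ 6 := by
    field_simp
  rw [he]
  have hbase : 2 * B ^ 2 * k * L ^ 6 ≤ L ^ 9 := by
    calc 2 * B ^ 2 * k * L ^ 6 ≤ L * L ^ 2 * L ^ 6 := by
          refine mul_le_mul_of_nonneg_right (mul_le_mul h1 hkL (by positivity) hL0.le)
            (by positivity)
      _ = L ^ 9 := by ring
  have hb2 : (2 * B ^ 2 * k * L ^ 6) ^ k ≤ Real.exp (k * (9 * Real.log L)) := by
    refine (pow_le_pow_left₀ (by positivity) hbase k).trans (le_of_eq ?_)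
    rw [Real.exp_nat_mul]
    congr 1
    rw [show (9 : ℝ) * Real.log L = ((9 : ℕ) : ℝ) * Real.log L by norm_num, Real.exp_nat_mul,
      Real.exp_log hL0]
  have hk3 : (k : ℝ) * (9 * Real.log L) ≤ η / 2 * L + 9 * Real.log L := by
    have h5 : (k : ℝ) * (9 * Real.log L) ≤
        (2 * L / ((A - 1) * Real.log L) + 1) * (9 * Real.log L) :=
      mul_le_mul_of_nonneg_right hk2 (by positivity)
    have h6 : (2 * L / ((A - 1) * Real.log L) + 1) * (9 * Real.log L) =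
        18 / (A - 1) * L + 9 * Real.log L := by
      have : Real.log L ≠ 0 := by linarith
      have hA2 : A - 1 ≠ 0 := hA1.ne'
      field_simp
      ring
    have h7 := mul_le_mul_of_nonneg_right hη hL0.le
    linarith
  calc 12 * (2 * B ^ 2 * k * L ^ 6) ^ k ≤ 12 * Real.exp (k * (9 * Real.log L)) :=
        mul_le_mul_of_nonneg_left hb2 (by norm_num)
    _ = Real.exp (Real.log 12 + k * (9 * Real.log L)) := by
        rw [Real.exp_add, Real.exp_log (by norm_num)]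
    _ ≤ Real.exp (η * L) := by
        rw [Real.exp_le_exp]
        linarith

/-- the number of characters that are bad for a small block -/
lemma small_count {b : ℕ → ℂ} {B : ℝ} (hb : ∀ p, ‖b p‖ ≤ B) {A η : ℝ} (hA : 3 ≤ A)
    (hη : 18 / (A - 1) ≤ η / 2) {Q : ℕ} (hL : Real.exp 1 ≤ Real.log Q)
    (h1 : 2 * B ^ 2 ≤ Real.log Q)
    (h2 : Real.log 12 + 9 * Real.log (Real.log Q) ≤ η / 2 * Real.log Q)
    {s : ℂ} (hs : 1 ≤ s.re) (j : ℕ) (hj : (Real.log Q) ^ A < 2 ^ (j + 1)) :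
    ((bad Q (Pb ((Real.log Q) ^ A) j) (cf b s) (1 / (Real.log Q) ^ 3)).card : ℝ) ≤ (Q : ℝ) ^ η := by
  set L := Real.log Q with hLdef
  have hL0 : 0 < L := (Real.exp_pos _).trans_le hL
  have hl1 : 1 ≤ Real.log L := by rwa [Real.le_log_iff_exp_le hL0]
  have hl2 : 0 < Real.log 2 := Real.log_pos (by norm_num)
  have hQ0 : (0 : ℝ) < Q := by
    rcases Nat.eq_zero_or_pos Q with h | h
    · rw [h] at hLdef; simp at hLdef; linarith
    · exact_mod_cast h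
  have hj2 : (A - 1) * Real.log L ≤ j * Real.log 2 := by
    have h3 := Real.log_le_log (by positivity) hj.le
    rw [Real.log_rpow hL0, Real.log_pow] at h3
    push_cast at h3
    have h4 : Real.log 2 < 1 := by
      have := Real.log_two_lt_d9
      linarith
    nlinarith
  have hjpos : 0 < (j : ℝ) * Real.log 2 := by nlinarith
  set k := ⌈2 * L / (j * Real.log 2)⌉₊ with hk
  have hk1 : (k : ℝ) ≤ 2 * L / (j * Real.log 2) + 1 := (Nat.ceil_lt_add_one (by positivity)).le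
  have hk2 : 2 * L / (j * Real.log 2) ≤ k := Nat.le_ceil _
  have hQk : (Q : ℝ) ^ 2 ≤ 2 ^ (j * k) := by
    rw [div_le_iff₀ hjpos] at hk2
    have h5 : (Q : ℝ) ^ 2 = Real.exp (2 * L) := by
      rw [show (2 : ℝ) * L = ((2 : ℕ) : ℝ) * L by norm_num, Real.exp_nat_mul, hLdef,
        Real.exp_log hQ0]
    have h6 : (2 : ℝ) ^ (j * k) = Real.exp (((j * k : ℕ) : ℝ) * Real.log 2) := by
      rw [Real.exp_nat_mul, Real.exp_log (by norm_num)]
    rw [h5, h6, Real.exp_le_exp]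
    push_cast
    nlinarith
  refine (small_block hb hs _ hQk (by positivity)).trans ?_
  refine (small_num hL hA hη h1 h2 hj2 hk1).trans (le_of_eq ?_)
  rw [Real.rpow_def_of_pos hQ0, ← hLdef, mul_comm]

end Pool.Agent.TH933.TE
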