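import Pool.Agent.TH933.TE.E2

/-!
# The exceptional set and the uniform bound
-/

set_option autoImplicit false

open Finset Real
open scoped Classical

namespace Pool.Agent.TH933.TE

lemma cpow_lip {p : ℕ} (hp : 1 ≤ p) {s s' : ℂ} (hs : 1 ≤ s.re) (hs' : 1 ≤ s'.re) :
    ‖(p : ℂ) ^ (-s) - (p : ℂ) ^ (-s')‖ ≤ Real.log p / p * ‖s - s'‖ := by
  have hp0 : (0 : ℝ) < p := by exact_mod_cast hp
  have hpc : (p : ℂ) ≠ 0 := by exact_mod_cast (show p ≠ 0 by omega)
  have hconv : Convex ℝ {z : ℂ | 1 ≤ z.re} := convex_halfSpace_re_ge 1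
  have hd : ∀ x ∈ {z : ℂ | 1 ≤ z.re}, HasDerivWithinAt (fun z : ℂ => (p : ℂ) ^ (-z))
      ((p : ℂ) ^ (-x) * Complex.log p * (-1)) {z : ℂ | 1 ≤ z.re} x := by
    intro x _
    exact ((hasDerivAt_id x).neg.const_cpow (Or.inl hpc)).hasDerivWithinAt
  refine hconv.norm_image_sub_le_of_norm_hasDerivWithin_le hd (fun x hx => ?_) hs' hs
  rw [norm_mul, norm_mul, norm_neg, norm_one, mul_one, Complex.norm_natCast_cpow_of_pos hp]
  have h1 : Complex.log (p : ℂ) = ((Real.log p : ℝ) : ℂ) := by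
    rw [Complex.ofReal_log hp0.le]; simp
  have h2 : 0 ≤ Real.log p := Real.log_natCast_nonneg p
  rw [h1, Complex.norm_real, Real.norm_of_nonneg h2, div_eq_mul_inv, mul_comm]
  refine mul_le_mul_of_nonneg_left ?_ h2
  rw [← Real.rpow_neg_one, Complex.neg_re]
  refine Real.rpow_le_rpow_of_exponent_le (by exact_mod_cast hp) ?_
  have : 1 ≤ x.re := hx
  linarith

/-- the sum over a block -/
noncomputable def BS (b : ℕ → ℂ) (y : ℝ) (j : ℕ) {q : ℕ} (χ : DirichletCharacter ℂ q) (s : ℂ) : ℂ :=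
  ∑ m ∈ Pb y j, cf b s m * χ (m : ZMod q)

lemma BS_lip {b : ℕ → ℂ} {B : ℝ} (hb : ∀ p, ‖b p‖ ≤ B) (y : ℝ) (j : ℕ) {q : ℕ}
    (χ : DirichletCharacter ℂ q) {s s' : ℂ} (hs : 1 ≤ s.re) (hs' : 1 ≤ s'.re) :
    ‖BS b y j χ s - BS b y j χ s'‖ ≤ B * (j + 1) * ‖s - s'‖ := by
  have hB : 0 ≤ B := (norm_nonneg _).trans (hb 0)
  have h2 : (0 : ℝ) < 2 ^ j := by positivity
  unfold BS
  rw [← Finset.sum_sub_distrib]
  have h1 : ∀ m ∈ Pb y j, ‖cf b s m * χ (m : ZMod q) - cf b s' m * χ (m : ZMod q)‖ ≤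
      B * ((j + 1) / 2 ^ j) * ‖s - s'‖ := by
    intro m hm
    rw [mem_Pb] at hm
    have hm1 : 1 ≤ m := hm.2.1.one_lt.le
    have e : cf b s m * χ (m : ZMod q) - cf b s' m * χ (m : ZMod q) =
        b m * (((m : ℂ) ^ (-s) - (m : ℂ) ^ (-s')) * χ (m : ZMod q)) := by
      unfold cf; ring
    rw [e, norm_mul, norm_mul, mul_assoc]
    refine mul_le_mul (hb m) ?_ (by positivity) hB
    have h3 : ‖χ (m : ZMod q)‖ ≤ 1 := DirichletCharacter.norm_le_one χ _
    have h4 := cpow_lip hm1 hs hs'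
    have h5 : Real.log m / m ≤ (j + 1) / 2 ^ j := by
      have h6 : Real.log m ≤ j + 1 := by
        have h7 : (m : ℝ) ≤ 2 ^ (j + 1) := by exact_mod_cast hm.1.2.le
        have h8 := Real.log_le_log (by exact_mod_cast hm1) h7
        rw [Real.log_pow] at h8
        push_cast at h8
        have h9 : Real.log 2 < 1 := by
          have := Real.log_two_lt_d9
          linarith
        have h10 : (0 : ℝ) ≤ (j : ℝ) + 1 := by positivity
        nlinarith
      have h7 : (2 : ℝ) ^ j ≤ m := by exact_mod_cast hm.1.1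
      exact div_le_div₀ (by positivity) h6 h2 h7
    calc ‖(m : ℂ) ^ (-s) - (m : ℂ) ^ (-s')‖ * ‖χ (m : ZMod q)‖
        ≤ ‖(m : ℂ) ^ (-s) - (m : ℂ) ^ (-s')‖ * 1 :=
          mul_le_mul_of_nonneg_left h3 (norm_nonneg _)
      _ ≤ Real.log m / m * ‖s - s'‖ := by rw [mul_one]; exact h4
      _ ≤ _ := mul_le_mul_of_nonneg_right h5 (norm_nonneg _)
  refine (norm_sum_le_of_le _ h1).trans ?_
  rw [sum_const, nsmul_eq_mul]
  calc ((Pb y j).card : ℝ) * (B * ((j + 1) / 2 ^ j) * ‖s - s'‖)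
      ≤ 2 ^ j * (B * ((j + 1) / 2 ^ j) * ‖s - s'‖) :=
        mul_le_mul_of_nonneg_right (card_Pb y j) (by positivity)
    _ = B * (j + 1) * ‖s - s'‖ := by field_simp

/-- the net -/
noncomputable def pt (R T a c : ℕ) : ℂ :=
  ((1 + (a : ℝ) / R : ℝ) : ℂ) + (((c : ℝ) / R - T : ℝ) : ℂ) * Complex.I

lemma pt_re (R T a c : ℕ) : (pt R T a c).re = 1 + (a : ℝ) / R := by
  unfold pt
  simp

lemma pt_im (R T a c : ℕ) : (pt R T a c).im = (c : ℝ) / R - T := by
  unfold pt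
  simp

lemma net {R T : ℕ} (hR : 1 ≤ R) {s : ℂ} (h1 : 1 ≤ s.re) (h2 : s.re ≤ 2) (h3 : |s.im| ≤ T) :
    ∃ a ∈ range (R + 1), ∃ c ∈ range (2 * T * R + 1), ‖s - pt R T a c‖ ≤ 2 / R := by
  have hR0 : (0 : ℝ) < R := by exact_mod_cast hR
  rw [abs_le] at h3
  refine ⟨⌊(s.re - 1) * R⌋₊, ?_, ⌊(s.im + T) * R⌋₊, ?_, ?_⟩
  · rw [mem_range, Nat.lt_succ_iff]
    refine Nat.floor_le_of_le ?_
    nlinarith
  · rw [mem_range, Nat.lt_succ_iff]
    refine Nat.floor_le_of_le ?_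
    push_cast
    nlinarith
  · refine (Complex.norm_le_abs_re_add_abs_im _).trans ?_
    rw [Complex.sub_re, Complex.sub_im, pt_re, pt_im]
    have a1 := Nat.floor_le (show 0 ≤ (s.re - 1) * R by nlinarith)
    have a2 := Nat.lt_floor_add_one ((s.re - 1) * R)
    have b1 := Nat.floor_le (show 0 ≤ (s.im + T) * R by nlinarith)
    have b2 := Nat.lt_floor_add_one ((s.im + T) * R)
    have e1 : |s.re - (1 + (⌊(s.re - 1) * R⌋₊ : ℝ) / R)| ≤ 1 / R := by
      rw [abs_le]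
      constructor
      · have : (⌊(s.re - 1) * R⌋₊ : ℝ) / R ≤ s.re - 1 := by rwa [div_le_iff₀ hR0]
        have : (0 : ℝ) < 1 / R := by positivity
        linarith
      · have : s.re - 1 ≤ ((⌊(s.re - 1) * R⌋₊ : ℝ) + 1) / R := by
          rw [le_div_iff₀ hR0]; exact a2.le
        rw [add_div] at this
        linarith
    have e2 : |s.im - ((⌊(s.im + T) * R⌋₊ : ℝ) / R - T)| ≤ 1 / R := by
      rw [abs_le]
      constructor
      · have : (⌊(s.im + T) * R⌋₊ : ℝ) / R ≤ s.im + T := by rwa [div_le_iff₀ hR0]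
        have : (0 : ℝ) < 1 / R := by positivity
        linarith
      · have : s.im + T ≤ ((⌊(s.im + T) * R⌋₊ : ℝ) + 1) / R := by
          rw [le_div_iff₀ hR0]; exact b2.le
        rw [add_div] at this
        linarith
    calc _ ≤ 1 / (R : ℝ) + 1 / R := add_le_add e1 e2
      _ = 2 / R := by ring


/-- the thresholds -/
noncomputable def dl (Q j : ℕ) : ℝ :=
  if (Q : ℝ) ^ 2 ≤ 2 ^ j then 1 / ((j : ℝ) + 1) ^ 2 else 1 / (Real.log Q) ^ 3


/-- the exceptional set -/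
noncomputable def EX (b : ℕ → ℂ) (y : ℝ) (Q J R T : ℕ) : Finset (Σ q : ℕ, DirichletCharacter ℂ q) :=
  (range (R + 1) ×ˢ range (2 * T * R + 1) ×ˢ range (J + 1)).biUnion fun x =>
    bad Q (Pb y x.2.2) (cf b (pt R T x.1 x.2.1)) (dl Q x.2.2)

lemma one_le_pt (R T a c : ℕ) : 1 ≤ (pt R T a c).re := by
  rw [pt_re]
  have : (0 : ℝ) ≤ (a : ℝ) / R := by positivity
  linarith

lemma card_EX {b : ℕ → ℂ} {B : ℝ} (hb : ∀ p, ‖b p‖ ≤ B) {A η : ℝ} (hA : 3 ≤ A)
    (hη : 18 / (A - 1) ≤ η / 2) {Q : ℕ} (hL : Real.exp 1 ≤ Real.log Q)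
    (h1 : 2 * B ^ 2 ≤ Real.log Q)
    (h2 : Real.log 12 + 9 * Real.log (Real.log Q) ≤ η / 2 * Real.log Q) (J R T : ℕ) :
    ((EX b ((Real.log Q) ^ A) Q J R T).card : ℝ) ≤
      ((R : ℝ) + 1) * (2 * T * R + 1) * (J + 1) * (18 * B ^ 2 * ((J : ℝ) + 1) ^ 4 + (Q : ℝ) ^ η) := by
  have hL0 : 0 < Real.log Q := (Real.exp_pos _).trans_le hL
  have hmain : ∀ x ∈ range (R + 1) ×ˢ range (2 * T * R + 1) ×ˢ range (J + 1),
      ((bad Q (Pb ((Real.log Q) ^ A) x.2.2) (cf b (pt R T x.1 x.2.1)) (dl Q x.2.2)).card : ℝ) ≤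
        18 * B ^ 2 * ((J : ℝ) + 1) ^ 4 + (Q : ℝ) ^ η := by
    intro x hx
    rw [mem_product, mem_product, mem_range, mem_range, mem_range] at hx
    have hxJ : (x.2.2 : ℝ) ≤ J := by exact_mod_cast Nat.lt_succ_iff.1 hx.2.2
    have hQη : (0 : ℝ) ≤ (Q : ℝ) ^ η := by positivity
    have h0 : 0 ≤ 18 * B ^ 2 * ((J : ℝ) + 1) ^ 4 := by positivity
    unfold dl
    split_ifs with hq
    · refine (big_block hb (one_le_pt _ _ _ _) _ hq (by positivity)).trans ?_
      have e : 18 * B ^ 2 / (1 / ((x.2.2 : ℝ) + 1) ^ 2) ^ 2 = 18 * B ^ 2 * ((x.2.2 : ℝ) + 1) ^ 4 := by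
        field_simp
      rw [e]
      have : 18 * B ^ 2 * ((x.2.2 : ℝ) + 1) ^ 4 ≤ 18 * B ^ 2 * ((J : ℝ) + 1) ^ 4 := by gcongr
      linarith
    · rcases lt_or_ge ((Real.log Q) ^ A) (2 ^ (x.2.2 + 1)) with hj | hj
      · have := small_count hb hA hη hL h1 h2 (one_le_pt R T x.1 x.2.1) x.2.2 hj
        linarith
      · have he : Pb ((Real.log Q) ^ A) x.2.2 = ∅ := by
          rw [Finset.eq_empty_iff_forall_notMem]
          intro p hp
          rw [mem_Pb] at hp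
          have : (p : ℝ) < 2 ^ (x.2.2 + 1) := by exact_mod_cast hp.1.2
          linarith [hp.2.2]
        have he2 : bad Q (Pb ((Real.log Q) ^ A) x.2.2) (cf b (pt R T x.1 x.2.1))
            (1 / (Real.log Q) ^ 3) = ∅ := by
          rw [Finset.eq_empty_iff_forall_notMem]
          rintro ⟨q, χ⟩ hq'
          rw [mem_bad, he, sum_empty, norm_zero] at hq'
          have : 0 < 1 / (Real.log Q) ^ 3 := by positivity
          linarith [hq'.2.2]
        rw [he2, card_empty]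
        push_cast
        linarith
  unfold EX
  have h3 : (((range (R + 1) ×ˢ range (2 * T * R + 1) ×ˢ range (J + 1)).biUnion fun x =>
    bad Q (Pb ((Real.log Q) ^ A) x.2.2) (cf b (pt R T x.1 x.2.1)) (dl Q x.2.2)).card : ℝ) ≤
      ∑ x ∈ range (R + 1) ×ˢ range (2 * T * R + 1) ×ˢ range (J + 1),
      ((bad Q (Pb ((Real.log Q) ^ A) x.2.2) (cf b (pt R T x.1 x.2.1)) (dl Q x.2.2)).card : ℝ) := by
    exact_mod_cast card_biUnion_le
  refine h3.trans ((Finset.sum_le_sum hmain).trans (le_of_eq ?_))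
  rw [sum_const, nsmul_eq_mul, card_product, card_product, card_range, card_range, card_range]
  push_cast
  ring

/-- the sum over the primes `y < p < 2^(J+1)` -/
noncomputable def TS (b : ℕ → ℂ) (y : ℝ) (J : ℕ) {q : ℕ} (χ : DirichletCharacter ℂ q) (s : ℂ) : ℂ :=
  ∑ j ∈ range (J + 1), BS b y j χ s

lemma sum_dl {Q : ℕ} (hL : 16 ≤ Real.log Q) (J : ℕ) :
    ∑ j ∈ range (J + 1), dl Q j ≤ 3 / (4 * Real.log Q) := by
  set L := Real.log Q with hLdef
  have hL0 : 0 < L := by linarith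
  have hQ0 : (0 : ℝ) < Q := by
    rcases Nat.eq_zero_or_pos Q with h | h
    · rw [h] at hLdef; simp at hLdef; linarith
    · exact_mod_cast h
  have hl2 : 0 < Real.log 2 := Real.log_pos (by norm_num)
  have hl2' : 0.69 < Real.log 2 := by have := Real.log_two_gt_d9; linarith
  have hl2'' : Real.log 2 < 0.7 := by have := Real.log_two_lt_d9; linarith
  have hiff : ∀ j : ℕ, (Q : ℝ) ^ 2 ≤ 2 ^ j ↔ 2 * L ≤ j * Real.log 2 := by
    intro j
    rw [← Real.log_le_log_iff (by positivity) (by positivity), Real.log_pow, Real.log_pow, hLdef]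
    push_cast
    rfl
  classical
  rw [← Finset.sum_filter_add_sum_filter_not (range (J + 1)) (fun j => (Q : ℝ) ^ 2 ≤ 2 ^ j)]
  have e1 : ∑ j ∈ (range (J + 1)).filter (fun j => (Q : ℝ) ^ 2 ≤ 2 ^ j), dl Q j ≤ 1 / (2 * L) := by
    set m := ⌈2 * L⌉₊ with hm
    have hm1 : 2 * L ≤ m := Nat.le_ceil _
    have hm0 : 1 ≤ m := by
      have : (0 : ℝ) < m := by linarith
      exact_mod_cast this
    have hsub : (range (J + 1)).filter (fun j => (Q : ℝ) ^ 2 ≤ 2 ^ j) ⊆ Ico m (J + 1 + m) := by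
      intro j hj
      rw [mem_filter, mem_range, hiff] at hj
      rw [mem_Ico]
      refine ⟨?_, by omega⟩
      refine Nat.ceil_le.2 ?_
      nlinarith [Nat.cast_nonneg (α := ℝ) j]
    have h3 : ∀ j ∈ (range (J + 1)).filter (fun j => (Q : ℝ) ^ 2 ≤ 2 ^ j),
        dl Q j = 1 / ((j : ℝ) + 1) ^ 2 := by
      intro j hj
      rw [mem_filter] at hj
      unfold dl
      rw [if_pos hj.2]
    rw [Finset.sum_congr rfl h3]
    refine (Finset.sum_le_sum_of_subset_of_nonneg hsub fun _ _ _ => by positivity).trans ?_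
    have h4 : ∀ n : ℕ, ∑ j ∈ Ico m (n + m), 1 / ((j : ℝ) + 1) ^ 2 ≤ 1 / m - 1 / ((n + m : ℕ) : ℝ) := by
      intro n
      induction n with
      | zero => simp
      | succ n ih =>
        rw [show n + 1 + m = (n + m) + 1 by ring, Finset.sum_Ico_succ_top (by omega)]
        have hpos : (0 : ℝ) < ((n + m : ℕ) : ℝ) := by exact_mod_cast (show 0 < n + m by omega)
        have h5 : 1 / ((((n + m : ℕ) : ℝ)) + 1) ^ 2 ≤
            1 / ((n + m : ℕ) : ℝ) - 1 / (((n + m + 1 : ℕ)) : ℝ) := by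
          push_cast at hpos ⊢
          rw [div_sub_div _ _ (by positivity) (by positivity), div_le_div_iff₀ (by positivity)
            (by positivity)]
          nlinarith
        linarith
    refine (h4 (J + 1)).trans ?_
    have h6 : (0 : ℝ) ≤ 1 / ((J + 1 + m : ℕ) : ℝ) := by positivity
    have h7 : 1 / (m : ℝ) ≤ 1 / (2 * L) := one_div_le_one_div_of_le (by positivity) hm1
    linarith
  have e2 : ∑ j ∈ (range (J + 1)).filter (fun j => ¬ (Q : ℝ) ^ 2 ≤ 2 ^ j), dl Q j ≤ 4 / L ^ 2 := by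
    have h3 : ∀ j ∈ (range (J + 1)).filter (fun j => ¬ (Q : ℝ) ^ 2 ≤ 2 ^ j),
        dl Q j = 1 / L ^ 3 := by
      intro j hj
      rw [mem_filter] at hj
      unfold dl
      rw [if_neg hj.2]
    rw [Finset.sum_congr rfl h3, sum_const, nsmul_eq_mul]
    have h4 : (((range (J + 1)).filter (fun j => ¬ (Q : ℝ) ^ 2 ≤ 2 ^ j)).card : ℝ) ≤ 4 * L := by
      have hsub : (range (J + 1)).filter (fun j => ¬ (Q : ℝ) ^ 2 ≤ 2 ^ j) ⊆ range (⌊3 * L⌋₊ + 1) := by
        intro j hj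
        rw [mem_filter, mem_range, hiff, not_le] at hj
        rw [mem_range, Nat.lt_succ_iff]
        refine Nat.le_floor ?_
        nlinarith [hj.2]
      have := card_le_card hsub
      rw [card_range] at this
      have h5 : (⌊3 * L⌋₊ : ℝ) ≤ 3 * L := Nat.floor_le (by positivity)
      have h6 : (((range (J + 1)).filter (fun j => ¬ (Q : ℝ) ^ 2 ≤ 2 ^ j)).card : ℝ) ≤
          (⌊3 * L⌋₊ : ℝ) + 1 := by exact_mod_cast this
      linarith
    calc _ ≤ 4 * L * (1 / L ^ 3) := mul_le_mul_of_nonneg_right h4 (by positivity)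
      _ = 4 / L ^ 2 := by field_simp
  have e3 : 4 / L ^ 2 ≤ 1 / (4 * L) := by
    rw [div_le_div_iff₀ (by positivity) (by positivity)]
    nlinarith
  have e4 : 1 / (2 * L) + 1 / (4 * L) = 3 / (4 * L) := by
    field_simp
    norm_num
  linarith

/-- the uniform bound for the characters outside the exceptional set -/
theorem TS_le {b : ℕ → ℂ} {B : ℝ} (hb : ∀ p, ‖b p‖ ≤ B) {y : ℝ} {Q J R T : ℕ}
    (hL : 16 ≤ Real.log Q) (hR : 1 ≤ R) (hR2 : 8 * B * ((J : ℝ) + 1) ^ 2 * Real.log Q ≤ R)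
    {q : ℕ} (hq : 1 ≤ q) (hqQ : q ≤ Q) (χ : DirichletCharacter ℂ q) (hχ : χ.IsPrimitive)
    (hE : (⟨q, χ⟩ : Σ q : ℕ, DirichletCharacter ℂ q) ∉ EX b y Q J R T) {s : ℂ}
    (h1 : 1 ≤ s.re) (h2 : s.re ≤ 2) (h3 : |s.im| ≤ T) :
    ‖TS b y J χ s‖ ≤ 1 / Real.log Q := by
  have hB : 0 ≤ B := (norm_nonneg _).trans (hb 0)
  have hL0 : 0 < Real.log Q := by linarith
  have hR0 : (0 : ℝ) < R := by exact_mod_cast hR
  obtain ⟨a, ha, c, hc, hac⟩ := net hR h1 h2 h3
  have hj : ∀ j ∈ range (J + 1), ‖BS b y j χ s‖ ≤ dl Q j + B * ((J : ℝ) + 1) * (2 / R) := by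
    intro j hj
    have hnot : (⟨q, χ⟩ : Σ q : ℕ, DirichletCharacter ℂ q) ∉
        bad Q (Pb y j) (cf b (pt R T a c)) (dl Q j) := by
      intro h
      apply hE
      unfold EX
      rw [mem_biUnion]
      refine ⟨(a, c, j), ?_, h⟩
      rw [mem_product, mem_product]
      exact ⟨ha, hc, hj⟩
    rw [mem_bad] at hnot
    have h4 : ‖BS b y j χ (pt R T a c)‖ ≤ dl Q j := by
      by_contra h
      push Not at h
      exact hnot ⟨⟨hq, hqQ⟩, hχ, h⟩
    have h5 := BS_lip hb y j χ h1 (one_le_pt R T a c)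
    have hjJ : (j : ℝ) ≤ J := by exact_mod_cast Nat.lt_succ_iff.1 (mem_range.1 hj)
    have h6 : B * ((j : ℝ) + 1) * ‖s - pt R T a c‖ ≤ B * ((J : ℝ) + 1) * (2 / R) := by
      refine mul_le_mul ?_ hac (norm_nonneg _) (by positivity)
      exact mul_le_mul_of_nonneg_left (by linarith) hB
    calc ‖BS b y j χ s‖ = ‖BS b y j χ (pt R T a c) + (BS b y j χ s - BS b y j χ (pt R T a c))‖ := by
          congr 1; ring
      _ ≤ _ := (norm_add_le _ _).trans (by linarith)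
  unfold TS
  refine (norm_sum_le_of_le _ hj).trans ?_
  rw [Finset.sum_add_distrib, sum_const, nsmul_eq_mul, card_range]
  have h7 := sum_dl hL J
  have h8 : ((J + 1 : ℕ) : ℝ) * (B * ((J : ℝ) + 1) * (2 / R)) ≤ 1 / (4 * Real.log Q) := by
    push_cast
    rw [show ((J : ℝ) + 1) * (B * ((J : ℝ) + 1) * (2 / R)) = 2 * B * ((J : ℝ) + 1) ^ 2 / R by ring,
      div_le_div_iff₀ hR0 (by positivity)]
    nlinarith
  have e4 : 3 / (4 * Real.log Q) + 1 / (4 * Real.log Q) = 1 / Real.log Q := by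
    field_simp
    norm_num
  linarith

end Pool.Agent.TH933.TE
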