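import Pool.Agent.TH933.TE.E3
import Pool.Agent.TH339.MP.R1

/-!
# The logarithm of the twisted Euler product
-/

set_option autoImplicit false

open Finset Real
open scoped Classical

namespace Pool.Agent.TH933.TE

open Pool.Agent.TH339.MP (PP tm FF bα lα fα hasSum_lα norm_bα summable_tm small norm_pr_cpow)

/-! ### elementary tails -/

lemma sum_inv_sq_tail {m : ℕ} (hm : 2 ≤ m) (G : Finset ℕ) (hG : ∀ n ∈ G, m ≤ n) :
    ∑ n ∈ G, 1 / (n : ℝ) ^ 2 ≤ (2 : ℝ) / m := by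
  have hm0 : (2 : ℝ) ≤ m := by exact_mod_cast hm
  obtain ⟨M, hM⟩ : ∃ M, ∀ n ∈ G, n < M := ⟨G.sup id + 1, fun n hn => Nat.lt_succ_of_le (le_sup (f := id) hn)⟩
  have hsub : G ⊆ Ico m (m + M) := by
    intro n hn
    rw [mem_Ico]
    have := hM n hn
    exact ⟨hG n hn, by omega⟩
  refine (Finset.sum_le_sum_of_subset_of_nonneg hsub fun _ _ _ => by positivity).trans ?_
  have h4 : ∀ k : ℕ, ∑ n ∈ Ico m (m + k), 1 / (n : ℝ) ^ 2 ≤
      1 / ((m : ℝ) - 1) - 1 / ((m : ℝ) + k - 1) := by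
    intro k
    induction k with
    | zero => simp
    | succ k ih =>
      rw [show m + (k + 1) = (m + k) + 1 by ring, Finset.sum_Ico_succ_top (by omega)]
      have hk : (0 : ℝ) ≤ k := Nat.cast_nonneg k
      have h5 : 1 / (((m + k : ℕ)) : ℝ) ^ 2 ≤
          1 / ((m : ℝ) + k - 1) - 1 / ((m : ℝ) + (k + 1 : ℕ) - 1) := by
        push_cast
        rw [div_sub_div _ _ (by linarith) (by linarith),
          div_le_div_iff₀ (by positivity) (by nlinarith)]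
        nlinarith
      linarith
  refine (h4 M).trans ?_
  have h6 : 0 ≤ 1 / ((m : ℝ) + M - 1) := by
    have : (0 : ℝ) ≤ M := Nat.cast_nonneg M
    apply div_nonneg zero_le_one
    linarith
  have h7 : 1 / ((m : ℝ) - 1) ≤ 2 / m := by
    rw [div_le_div_iff₀ (by linarith) (by linarith)]
    linarith
  linarith

lemma rpow_step {u : ℝ} (hu : 0 < u) {n : ℝ} (hn : 1 < n) :
    n ^ (-(1 + u)) ≤ ((n - 1) ^ (-u) - n ^ (-u)) / u := by
  have hn0 : 0 < n := by linarith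
  have hn1 : 0 < n - 1 := by linarith
  rw [le_div_iff₀ hu]
  have h1 : (n - 1) ^ (-u) = n ^ (-u) * (1 - 1 / n) ^ (-u) := by
    rw [← Real.mul_rpow hn0.le (by rw [sub_nonneg, div_le_one hn0]; exact hn.le)]
    congr 1
    field_simp
  have h2 : 0 < 1 - 1 / n := by
    rw [sub_pos, div_lt_one hn0]; exact hn
  have h3 : 1 + u / n ≤ (1 - 1 / n) ^ (-u) := by
    rw [Real.rpow_def_of_pos h2]
    have h4 := Real.log_le_sub_one_of_pos h2
    have h5 : u / n ≤ Real.log (1 - 1 / n) * (-u) := by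
      have : u / n = (1 / n) * u := by ring
      nlinarith
    linarith [Real.add_one_le_exp (Real.log (1 - 1 / n) * (-u))]
  have h6 : n ^ (-(1 + u)) * u = n ^ (-u) * (u / n) := by
    rw [show -(1 + u) = -u - 1 by ring, Real.rpow_sub_one hn0.ne']
    ring
  rw [h6, h1]
  have h7 : 0 < n ^ (-u) := Real.rpow_pos_of_pos hn0 _
  nlinarith

lemma sum_rpow_tail {u : ℝ} (hu : 0 < u) {m : ℕ} (hm : 2 ≤ m) (G : Finset ℕ)
    (hG : ∀ n ∈ G, m ≤ n) : ∑ n ∈ G, (n : ℝ) ^ (-(1 + u)) ≤ ((m : ℝ) - 1) ^ (-u) / u := by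
  have hm0 : (2 : ℝ) ≤ m := by exact_mod_cast hm
  obtain ⟨M, hM⟩ : ∃ M, ∀ n ∈ G, n < M := ⟨G.sup id + 1, fun n hn => Nat.lt_succ_of_le (le_sup (f := id) hn)⟩
  have hsub : G ⊆ Ico m (m + M) := by
    intro n hn
    rw [mem_Ico]
    have := hM n hn
    exact ⟨hG n hn, by omega⟩
  refine (Finset.sum_le_sum_of_subset_of_nonneg hsub fun _ _ _ => by positivity).trans ?_
  have h4 : ∀ k : ℕ, ∑ n ∈ Ico m (m + k), (n : ℝ) ^ (-(1 + u)) ≤
      (((m : ℝ) - 1) ^ (-u) - ((m : ℝ) + k - 1) ^ (-u)) / u := by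
    intro k
    induction k with
    | zero => simp
    | succ k ih =>
      rw [show m + (k + 1) = (m + k) + 1 by ring, Finset.sum_Ico_succ_top (by omega)]
      have hk : (0 : ℝ) ≤ k := Nat.cast_nonneg k
      have h5 := rpow_step hu (n := ((m + k : ℕ) : ℝ)) (by push_cast; linarith)
      have e : (((m : ℝ) - 1) ^ (-u) - ((m : ℝ) + (k + 1 : ℕ) - 1) ^ (-u)) / u =
          (((m : ℝ) - 1) ^ (-u) - ((m : ℝ) + k - 1) ^ (-u)) / u +
          ((((m + k : ℕ) : ℝ) - 1) ^ (-u) - ((m + k : ℕ) : ℝ) ^ (-u)) / u := by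
        push_cast
        rw [show (m : ℝ) + (k + 1) - 1 = m + k by ring]
        ring
      rw [e]
      linarith
  refine (h4 M).trans ?_
  have h6 : 0 ≤ ((m : ℝ) + M - 1) ^ (-u) := by
    have : (0 : ℝ) ≤ M := Nat.cast_nonneg M
    exact Real.rpow_nonneg (by linarith) _
  exact div_le_div_of_nonneg_right (by linarith) hu.le

/-- sums over primes as sums over numbers -/
lemma sum_primes_coe (F : Finset Nat.Primes) (g : ℕ → ℝ) :
    ∑ p ∈ F, g (p : ℕ) = ∑ n ∈ F.image (fun p : Nat.Primes => (p : ℕ)), g n := by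
  rw [Finset.sum_image]
  intro a _ b _ h
  exact Nat.Primes.coe_nat_injective h

/-! ### the twist -/

variable {N : ℕ}

/-- the twisted eigenvalues -/
noncomputable def tw (α : ℕ → Fin N → ℂ) {q : ℕ} (χ : DirichletCharacter ℂ q) (p : ℕ) (j : Fin N) :
    ℂ := α p j * χ (p : ZMod q)

lemma norm_tw {α : ℕ → Fin N → ℂ} {S : Finset ℕ}
    (hα : ∀ p : ℕ, p.Prime → p ∉ S → ∀ j, ‖α p j‖ ≤ 1) {q : ℕ} (χ : DirichletCharacter ℂ q) :
    ∀ p : ℕ, p.Prime → p ∉ S → ∀ j, ‖tw α χ p j‖ ≤ 1 := by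
  intro p hp hpS j
  unfold tw
  rw [norm_mul]
  have h1 := hα p hp hpS j
  have h2 : ‖χ (p : ZMod q)‖ ≤ 1 := DirichletCharacter.norm_le_one χ _
  nlinarith [norm_nonneg (α p j), norm_nonneg (χ (p : ZMod q))]

/-- the traces -/
noncomputable def trc (α : ℕ → Fin N → ℂ) (S : Finset ℕ) (p : ℕ) : ℂ :=
  if p.Prime ∧ p ∉ S then ∑ j, α p j else 0

lemma norm_trc {α : ℕ → Fin N → ℂ} {S : Finset ℕ}
    (hα : ∀ p : ℕ, p.Prime → p ∉ S → ∀ j, ‖α p j‖ ≤ 1) (p : ℕ) : ‖trc α S p‖ ≤ (N : ℝ) := by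
  unfold trc
  split_ifs with h
  · refine (norm_sum_le_of_le (n := fun _ => (1 : ℝ)) _ fun j _ => hα p h.1 h.2 j).trans ?_
    simp
  · rw [norm_zero]; positivity

/-- the logarithm of the local factor and its main term -/
lemma lα_approx {α : ℕ → Fin N → ℂ} {S : Finset ℕ}
    (hα : ∀ p : ℕ, p.Prime → p ∉ S → ∀ j, ‖α p j‖ ≤ 1) {q : ℕ} (χ : DirichletCharacter ℂ q)
    {s : ℂ} (hs : 1 ≤ s.re) (p : Nat.Primes) :
    ‖lα (tw α χ) S s p - cf (trc α S) s p * χ ((p : ℕ) : ZMod q)‖ ≤ N * (1 / ((p : ℕ) : ℝ) ^ 2) := by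
  unfold lα cf trc
  by_cases hp : (p : ℕ) ∈ S
  · simp only [hp, if_true, not_true_eq_false, and_false, if_false, zero_mul, sub_zero, norm_zero]
    positivity
  · simp only [hp, if_false, not_false_eq_true, and_true, p.2, if_true]
    rw [Finset.sum_mul, Finset.sum_mul, ← Finset.sum_sub_distrib]
    have h1 : ∀ j ∈ (univ : Finset (Fin N)),
        ‖-Complex.log (1 - tw α χ p j * ((p : ℕ) : ℂ) ^ (-s)) -
          α p j * ((p : ℕ) : ℂ) ^ (-s) * χ ((p : ℕ) : ZMod q)‖ ≤ 1 / ((p : ℕ) : ℝ) ^ 2 := by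
      intro j _
      set w := tw α χ p j * ((p : ℕ) : ℂ) ^ (-s) with hw
      have e1 : α p j * ((p : ℕ) : ℂ) ^ (-s) * χ ((p : ℕ) : ZMod q) = w := by
        rw [hw, tw]; ring
      rw [e1]
      have hp2 : (2 : ℝ) ≤ (p : ℕ) := by exact_mod_cast p.2.two_le
      have hw1 : ‖w‖ ≤ 1 / (p : ℕ) := by
        rw [hw, norm_mul, Complex.norm_natCast_cpow_of_pos p.2.pos]
        have h2 := norm_tw hα χ p p.2 hp j
        have h3 : ((p : ℕ) : ℝ) ^ ((-s).re) ≤ 1 / (p : ℕ) := by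
          rw [one_div, ← Real.rpow_neg_one, Complex.neg_re]
          exact Real.rpow_le_rpow_of_exponent_le (by linarith) (by linarith)
        calc ‖tw α χ p j‖ * ((p : ℕ) : ℝ) ^ ((-s).re) ≤ 1 * (1 / (p : ℕ)) :=
              mul_le_mul h2 h3 (by positivity) zero_le_one
          _ = 1 / (p : ℕ) := one_mul _
      have hw2 : ‖w‖ ≤ 1 / 2 := hw1.trans (one_div_le_one_div_of_le (by norm_num) hp2)
      have h4 := Complex.norm_log_one_add_sub_self_le (z := -w) (by rw [norm_neg]; linarith)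
      rw [norm_neg] at h4
      have e2 : -Complex.log (1 - w) - w = -(Complex.log (1 + -w) - -w) := by
        rw [← sub_eq_add_neg]; ring
      rw [e2, norm_neg]
      have h5 : (1 - ‖w‖)⁻¹ ≤ 2 := by
        rw [inv_le_comm₀ (by linarith) (by norm_num)]
        linarith
      have h6 : ‖w‖ ^ 2 ≤ 1 / ((p : ℕ) : ℝ) ^ 2 := by
        have := pow_le_pow_left₀ (norm_nonneg w) hw1 2
        rwa [div_pow, one_pow] at this
      have h7 : 0 ≤ ‖w‖ ^ 2 := by positivity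
      nlinarith
    refine (norm_sum_le_of_le _ h1).trans ?_
    rw [sum_const, nsmul_eq_mul, card_univ, Fintype.card_fin]

lemma coe_inj : Function.Injective (fun p : Nat.Primes => (p : ℕ)) := fun _ _ h => Subtype.ext h

/-- the primes up to `y` -/
noncomputable def PY (y : ℝ) : Finset Nat.Primes :=
  ((Set.finite_Iic ⌊y⌋₊).preimage (f := fun p : Nat.Primes => (p : ℕ)) coe_inj.injOn).toFinset

lemma mem_PY {y : ℝ} (hy : 0 ≤ y) {p : Nat.Primes} : p ∈ PY y ↔ ((p : ℕ) : ℝ) ≤ y := by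
  unfold PY
  rw [Set.Finite.mem_toFinset, Set.mem_preimage, Set.mem_Iic]
  exact Nat.le_floor_iff hy

/-- the block sums together -/
lemma TS_eq (b : ℕ → ℂ) (y : ℝ) (J : ℕ) {q : ℕ} (χ : DirichletCharacter ℂ q) (s : ℂ) :
    TS b y J χ s = ∑ n ∈ (Ico 1 (2 ^ (J + 1))).filter (fun n : ℕ => n.Prime ∧ y < (n : ℝ)),
      cf b s n * χ (n : ZMod q) := by
  unfold TS BS Pb
  induction J with
  | zero => simp
  | succ J ih =>
    rw [Finset.sum_range_succ, ih, Finset.sum_filter, Finset.sum_filter, Finset.sum_filter]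
    exact Finset.sum_Ico_consecutive _ (Nat.one_le_two_pow) (Nat.pow_le_pow_right (by norm_num) (by omega))

lemma sum_mid (g : ℕ → ℂ) {y : ℝ} (hy : 0 ≤ y) {X : ℕ} (F : Finset Nat.Primes)
    (hF : ∀ p : Nat.Primes, (p : ℕ) < X → p ∈ F) :
    ∑ p ∈ F.filter (fun p : Nat.Primes => p ∉ PY y ∧ (p : ℕ) < X), g p =
      ∑ n ∈ (Ico 1 X).filter (fun n : ℕ => n.Prime ∧ y < (n : ℝ)), g n := by
  refine Finset.sum_bij (fun p _ => (p : ℕ)) ?_ ?_ ?_ ?_
  · intro p hp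
    rw [mem_filter, mem_PY hy, not_le] at hp
    rw [mem_filter, mem_Ico]
    exact ⟨⟨p.2.one_lt.le, hp.2.2⟩, p.2, hp.2.1⟩
  · intro a _ b _ h
    exact Nat.Primes.coe_nat_injective h
  · intro n hn
    rw [mem_filter, mem_Ico] at hn
    obtain ⟨P, hP⟩ : ∃ P : Nat.Primes, (P : ℕ) = n := ⟨⟨n, hn.2.1⟩, rfl⟩
    refine ⟨P, ?_, hP⟩
    rw [mem_filter, mem_PY hy, not_le, hP]
    exact ⟨hF P (hP ▸ hn.1.2), hn.2.2, hn.1.2⟩
  · intro _ _; rfl

/-- finite sums of the logarithms over primes above `y` -/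
lemma fin_bound {α : ℕ → Fin N → ℂ} {S : Finset ℕ}
    (hα : ∀ p : ℕ, p.Prime → p ∉ S → ∀ j, ‖α p j‖ ≤ 1) {q : ℕ} (χ : DirichletCharacter ℂ q)
    {y : ℝ} (hy : 2 ≤ y) (J : ℕ) {u : ℝ} (hu : 0 < u) {s : ℂ} (hs : 1 + u ≤ s.re) (F : Finset Nat.Primes)
    (hF : ∀ p : Nat.Primes, (p : ℕ) < 2 ^ (J + 1) → p ∈ F) :
    ‖∑ p ∈ F.filter (fun p => p ∉ PY y), lα (tw α χ) S s p‖ ≤
      ‖TS (trc α S) y J χ s‖ + 2 * N / y + N * (((2 : ℝ) ^ J) ^ (-u) / u) := by
  have hs1 : 1 ≤ s.re := by linarith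
  have hy0 : 0 ≤ y := by linarith
  have hsplit : ∑ p ∈ F.filter (fun p => p ∉ PY y), lα (tw α χ) S s p =
      ∑ p ∈ F.filter (fun p => p ∉ PY y), (lα (tw α χ) S s p - cf (trc α S) s p * χ ((p : ℕ) : ZMod q)) +
      (TS (trc α S) y J χ s +
      ∑ p ∈ F.filter (fun p : Nat.Primes => p ∉ PY y ∧ ¬ (p : ℕ) < 2 ^ (J + 1)),
        cf (trc α S) s p * χ ((p : ℕ) : ZMod q)) := by
    rw [TS_eq, ← sum_mid (fun n => cf (trc α S) s n * χ (n : ZMod q)) hy0 F hF,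
      Finset.sum_sub_distrib]
    rw [← Finset.sum_filter_add_sum_filter_not (F.filter (fun p => p ∉ PY y))
      (fun p : Nat.Primes => (p : ℕ) < 2 ^ (J + 1)) (fun p => cf (trc α S) s p * χ ((p : ℕ) : ZMod q)),
      Finset.filter_filter, Finset.filter_filter]
    ring
  rw [hsplit]
  refine (norm_add_le _ _).trans ?_
  have e1 : ‖∑ p ∈ F.filter (fun p => p ∉ PY y),
      (lα (tw α χ) S s p - cf (trc α S) s p * χ ((p : ℕ) : ZMod q))‖ ≤ 2 * N / y := by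
    refine (norm_sum_le_of_le _ fun p _ => lα_approx hα χ hs1 p).trans ?_
    rw [← Finset.mul_sum, sum_primes_coe _ (fun n => 1 / (n : ℝ) ^ 2)]
    have h1 := sum_inv_sq_tail (m := ⌊y⌋₊ + 1) (by
        have : 2 ≤ ⌊y⌋₊ := Nat.le_floor (by exact_mod_cast hy)
        omega)
      ((F.filter (fun p => p ∉ PY y)).image (fun p : Nat.Primes => (p : ℕ))) (by
        intro n hn
        rw [mem_image] at hn
        obtain ⟨p, hp, rfl⟩ := hn
        rw [mem_filter, mem_PY hy0, not_le] at hp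
        have := (Nat.floor_lt hy0).2 hp.2
        omega)
    have h2 : 2 / (((⌊y⌋₊ + 1 : ℕ)) : ℝ) ≤ 2 / y := by
      refine div_le_div_of_nonneg_left (by norm_num) (by linarith) ?_
      push_cast
      exact (Nat.lt_floor_add_one y).le
    calc (N : ℝ) * _ ≤ N * (2 / y) := mul_le_mul_of_nonneg_left (h1.trans h2) (Nat.cast_nonneg N)
      _ = 2 * N / y := by ring
  have e2 : ‖∑ p ∈ F.filter (fun p : Nat.Primes => p ∉ PY y ∧ ¬ (p : ℕ) < 2 ^ (J + 1)),
        cf (trc α S) s p * χ ((p : ℕ) : ZMod q)‖ ≤ N * (((2 : ℝ) ^ J) ^ (-u) / u) := by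
    have h1 : ∀ p ∈ F.filter (fun p : Nat.Primes => p ∉ PY y ∧ ¬ (p : ℕ) < 2 ^ (J + 1)),
        ‖cf (trc α S) s p * χ ((p : ℕ) : ZMod q)‖ ≤ N * ((p : ℕ) : ℝ) ^ (-(1 + u)) := by
      intro p _
      unfold cf
      rw [norm_mul, norm_mul, Complex.norm_natCast_cpow_of_pos p.2.pos]
      have h2 := norm_trc hα p
      have h3 : ((p : ℕ) : ℝ) ^ ((-s).re) ≤ ((p : ℕ) : ℝ) ^ (-(1 + u)) := by
        refine Real.rpow_le_rpow_of_exponent_le (by exact_mod_cast p.2.one_lt.le) ?_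
        rw [Complex.neg_re]; linarith
      have h4 : ‖χ ((p : ℕ) : ZMod q)‖ ≤ 1 := DirichletCharacter.norm_le_one χ _
      calc _ ≤ ‖trc α S p‖ * ((p : ℕ) : ℝ) ^ ((-s).re) * 1 :=
            mul_le_mul_of_nonneg_left h4 (by positivity)
        _ ≤ _ := by rw [mul_one]; exact mul_le_mul h2 h3 (by positivity) (Nat.cast_nonneg N)
    refine (norm_sum_le_of_le _ h1).trans ?_
    rw [← Finset.mul_sum, sum_primes_coe _ (fun n => (n : ℝ) ^ (-(1 + u)))]
    refine mul_le_mul_of_nonneg_left ?_ (Nat.cast_nonneg N)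
    have h2 : 2 ≤ 2 ^ (J + 1) := by
      rw [pow_succ]; have := Nat.one_le_two_pow (n := J); omega
    refine (sum_rpow_tail hu h2 _ ?_).trans ?_
    · intro n hn
      rw [mem_image] at hn
      obtain ⟨p, hp, rfl⟩ := hn
      rw [mem_filter] at hp
      exact not_lt.1 hp.2.2
    · refine div_le_div_of_nonneg_right ?_ hu.le
      refine Real.rpow_le_rpow_of_nonpos (by positivity) ?_ (by linarith)
      push_cast
      rw [pow_succ]
      have : (1 : ℝ) ≤ 2 ^ J := one_le_pow₀ (by norm_num)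
      linarith
  calc _ ≤ 2 * N / y + (‖TS (trc α S) y J χ s‖ + N * (((2 : ℝ) ^ J) ^ (-u) / u)) :=
        add_le_add e1 ((norm_add_le _ _).trans (add_le_add_right e2 _))
    _ = _ := by ring

/-- the logarithm of the twisted Euler product beyond `y` -/
theorem tail_bound {α : ℕ → Fin N → ℂ} {S : Finset ℕ}
    (hα : ∀ p : ℕ, p.Prime → p ∉ S → ∀ j, ‖α p j‖ ≤ 1) {q : ℕ} (χ : DirichletCharacter ℂ q)
    {y : ℝ} (hy : 2 ≤ y) (J : ℕ) {u : ℝ} (hu : 0 < u) {s : ℂ} (hs : 1 + u ≤ s.re) :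
    ‖FF (bα (tw α χ) S) s - ∑ p ∈ PY y, lα (tw α χ) S s p‖ ≤
      ‖TS (trc α S) y J χ s‖ + 2 * N / y + N * (((2 : ℝ) ^ J) ^ (-u) / u) := by
  have hs1 : 1 < s.re := by linarith
  have h1 : HasSum (lα (tw α χ) S s) (FF (bα (tw α χ) S) s) :=
    (summable_tm (norm_bα (norm_tw hα χ)) hs1).hasSum.prod_fiberwise fun p =>
      hasSum_lα (norm_tw hα χ) p hs1.le
  have h2 : Filter.Tendsto (fun F : Finset Nat.Primes =>
      ‖(∑ p ∈ F, lα (tw α χ) S s p) - ∑ p ∈ PY y, lα (tw α χ) S s p‖) Filter.atTop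
      (nhds ‖FF (bα (tw α χ) S) s - ∑ p ∈ PY y, lα (tw α χ) S s p‖) :=
    (Filter.Tendsto.sub_const h1 _).norm
  refine le_of_tendsto h2 ?_
  filter_upwards [Filter.eventually_ge_atTop (PY y ∪ PY ((2 : ℝ) ^ (J + 1)))] with F hF
  have hF1 : PY y ⊆ F := (Finset.subset_union_left).trans hF
  have hF2 : PY ((2 : ℝ) ^ (J + 1)) ⊆ F := (Finset.subset_union_right).trans hF
  have e : (∑ p ∈ F, lα (tw α χ) S s p) - ∑ p ∈ PY y, lα (tw α χ) S s p =
      ∑ p ∈ F.filter (fun p => p ∉ PY y), lα (tw α χ) S s p := by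
    rw [← Finset.sum_filter_add_sum_filter_not F (fun p => p ∈ PY y)]
    have : F.filter (fun p => p ∈ PY y) = PY y := by
      ext p
      rw [mem_filter]
      exact ⟨fun h => h.2, fun h => ⟨hF1 h, h⟩⟩
    rw [this]
    ring
  rw [e]
  refine fin_bound hα χ hy J hu hs F fun p hp => hF2 ?_
  rw [mem_PY (by positivity)]
  exact_mod_cast hp.le

end Pool.Agent.TH933.TE
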