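import Pool.Agent.TH933.TE.E4

/-!
# The partial sums on the edge
-/

set_option autoImplicit false

open Finset Real
open scoped Classical

namespace Pool.Agent.TH933.TE

open Pool.Agent.TH339.MP (PP tm FF TX mem_TX PS qq wt bα lα fα hasSum_lα norm_bα summable_tm small
  norm_pr_cpow tm_eq)

variable {N : ℕ}

lemma norm_tm_le {α : ℕ → Fin N → ℂ} {S : Finset ℕ}
    (hα : ∀ p : ℕ, p.Prime → p ∉ S → ∀ j, ‖α p j‖ ≤ 1) {s : ℂ} (hs : 1 ≤ s.re) (p : Nat.Primes)
    (k : ℕ) : ‖tm (bα α S) s (p, k)‖ ≤ N * (1 / ((p : ℕ) : ℝ)) ^ (k + 1) := by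
  have hp2 : (2 : ℝ) ≤ (p : ℕ) := by exact_mod_cast p.2.two_le
  unfold tm
  simp only
  rw [norm_mul, norm_pow, Complex.norm_natCast_cpow_of_pos p.2.pos]
  have h1 := norm_bα hα (p, k)
  simp only at h1
  have h2 : (N : ℝ) / ((k + 1 : ℕ) : ℝ) ≤ N := by
    refine div_le_self (Nat.cast_nonneg N) ?_
    push_cast
    have : (0 : ℝ) ≤ k := Nat.cast_nonneg k
    linarith
  have h3 : ((p : ℕ) : ℝ) ^ ((-s).re) ≤ 1 / (p : ℕ) := by
    rw [one_div, ← Real.rpow_neg_one, Complex.neg_re]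
    exact Real.rpow_le_rpow_of_exponent_le (by linarith) (by linarith)
  exact mul_le_mul (h1.trans h2) (pow_le_pow_left₀ (by positivity) h3 _) (by positivity)
    (Nat.cast_nonneg N)

lemma part_bound {α : ℕ → Fin N → ℂ} {S : Finset ℕ}
    (hα : ∀ p : ℕ, p.Prime → p ∉ S → ∀ j, ‖α p j‖ ≤ 1) {s : ℂ} (hs : 1 ≤ s.re) (p : Nat.Primes)
    (K : ℕ) : ‖∑ k ∈ range K, tm (bα α S) s (p, k) - lα α S s p‖ ≤
      2 * N * (1 / ((p : ℕ) : ℝ)) ^ (K + 1) := by
  have hp2 : (2 : ℝ) ≤ (p : ℕ) := by exact_mod_cast p.2.two_le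
  set r : ℝ := 1 / ((p : ℕ) : ℝ) with hr
  have hr0 : 0 ≤ r := by positivity
  have hr1 : r ≤ 1 / 2 := one_div_le_one_div_of_le (by norm_num) hp2
  have h1 := (hasSum_nat_add_iff' K).2 (hasSum_lα hα p hs)
  have h2 : HasSum (fun n : ℕ => N * r ^ (K + 1) * r ^ n) (N * r ^ (K + 1) * (1 - r)⁻¹) :=
    (hasSum_geometric_of_lt_one hr0 (by linarith)).mul_left _
  have h3 := h1.norm_le_of_bounded h2 (fun n => by
    refine (norm_tm_le hα hs p (n + K)).trans (le_of_eq ?_)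
    rw [show n + K + 1 = (K + 1) + n by ring, pow_add, mul_assoc])
  rw [norm_sub_rev]
  refine h3.trans ?_
  have h4 : (1 - r)⁻¹ ≤ 2 := by
    rw [inv_le_comm₀ (by linarith) (by norm_num)]
    linarith
  have h5 : 0 ≤ N * r ^ (K + 1) := by positivity
  nlinarith

/-- the number of powers -/
lemma fiber_eq (X : ℕ) (hX : X ≠ 0) (p : Nat.Primes) (f : PP → ℂ) :
    ∑ x ∈ (TX X).filter (fun x => x.1 = p), f x = ∑ k ∈ range (Nat.log p X), f (p, k) := by
  refine Finset.sum_bij (fun x _ => x.2) ?_ ?_ ?_ ?_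
  · intro x hx
    rw [mem_filter, mem_TX] at hx
    rw [mem_range, Nat.lt_iff_add_one_le, Nat.le_log_iff_pow_le p.2.one_lt hX]
    have := hx.1
    unfold qq at this
    rwa [hx.2] at this
  · intro x hx x' hx' h
    rw [mem_filter] at hx hx'
    exact Prod.ext (hx.2.trans hx'.2.symm) h
  · intro k hk
    rw [mem_range, Nat.lt_iff_add_one_le, Nat.le_log_iff_pow_le p.2.one_lt hX] at hk
    refine ⟨(p, k), ?_, rfl⟩
    rw [mem_filter, mem_TX]
    exact ⟨hk, rfl⟩
  · intro x hx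
    rw [mem_filter] at hx
    rw [← hx.2]

lemma tm_zero (α : ℕ → Fin N → ℂ) (S : Finset ℕ) {q : ℕ} (χ : DirichletCharacter ℂ q) (s : ℂ)
    (p : Nat.Primes) :
    tm (bα (tw α χ) S) s (p, 0) = cf (trc α S) s p * χ ((p : ℕ) : ZMod q) := by
  unfold tm bα cf trc tw
  by_cases hp : (p : ℕ) ∈ S
  · simp [hp]
  · simp only [hp, if_false, not_false_eq_true, and_true, p.2, if_true, zero_add, pow_one,
      Nat.cast_one, div_one]
    rw [← Finset.sum_mul]
    ring

/-- the partial sums on the edge and the short product -/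
theorem edge_bound {α : ℕ → Fin N → ℂ} {S : Finset ℕ}
    (hα : ∀ p : ℕ, p.Prime → p ∉ S → ∀ j, ‖α p j‖ ≤ 1) {q : ℕ} (χ : DirichletCharacter ℂ q)
    {y : ℝ} (hy : 2 ≤ y) {J : ℕ} (hJ : y ≤ 2 ^ J) (τ : ℝ) :
    ‖PS (bα (tw α χ) S) (2 ^ (J + 1) - 1) τ - ∑ p ∈ PY y, lα (tw α χ) S (1 + τ * Complex.I) p‖ ≤
      ‖TS (trc α S) y J χ (1 + τ * Complex.I)‖ + 8 * N / y + 2 * N * y / 2 ^ J := by
  have hy0 : 0 ≤ y := by linarith
  set s : ℂ := 1 + τ * Complex.I with hs
  have hs1 : 1 ≤ s.re := by rw [hs]; simp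
  set X : ℕ := 2 ^ (J + 1) - 1 with hXdef
  have h2J : 1 ≤ 2 ^ J := Nat.one_le_two_pow
  have hX1 : 2 ^ J ≤ X := by rw [hXdef, pow_succ]; omega
  have hX2 : X + 1 = 2 ^ (J + 1) := by
    have : 1 ≤ 2 ^ (J + 1) := Nat.one_le_two_pow
    omega
  have hX0 : X ≠ 0 := by omega
  set β := tw α χ with hβ
  have hβ1 := norm_tw (S := S) hα χ
  rw [← hβ] at hβ1
  -- as a sum over primes
  have e1 : PS (bα β S) X τ = ∑ p ∈ PY (X : ℝ), ∑ k ∈ range (Nat.log p X), tm (bα β S) s (p, k) := by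
    have e0 : PS (bα β S) X τ = ∑ x ∈ TX X, tm (bα β S) s x := by
      unfold PS
      refine Finset.sum_congr rfl fun x _ => ?_
      have := tm_eq (bα β S) 1 τ x
      rw [Complex.ofReal_one] at this
      rw [hs, this]
    rw [e0, ← Finset.sum_fiberwise_of_maps_to (s := TX X) (t := PY (X : ℝ)) (g := fun x : PP => x.1)]
    · exact Finset.sum_congr rfl fun p _ => fiber_eq X hX0 p _
    · intro x hx
      rw [mem_TX] at hx
      rw [mem_PY (Nat.cast_nonneg X)]
      have : (x.1 : ℕ) ≤ (x.1 : ℕ) ^ (x.2 + 1) := Nat.le_self_pow (by omega) _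
      exact_mod_cast this.trans hx
  have hsub : PY y ⊆ PY (X : ℝ) := by
    intro p hp
    rw [mem_PY hy0] at hp
    rw [mem_PY (Nat.cast_nonneg X)]
    have : ((2 ^ J : ℕ) : ℝ) ≤ X := by exact_mod_cast hX1
    push_cast at this
    linarith
  have e2 : PS (bα β S) X τ - ∑ p ∈ PY y, lα β S s p =
      ∑ p ∈ PY y, (∑ k ∈ range (Nat.log p X), tm (bα β S) s (p, k) - lα β S s p) +
      (∑ p ∈ (PY (X : ℝ)).filter (fun p => p ∉ PY y),
        (∑ k ∈ range (Nat.log p X), tm (bα β S) s (p, k) - tm (bα β S) s (p, 0)) +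
      TS (trc α S) y J χ s) := by
    have e3 : TS (trc α S) y J χ s = ∑ p ∈ (PY (X : ℝ)).filter (fun p => p ∉ PY y),
        tm (bα β S) s (p, 0) := by
      rw [TS_eq, ← sum_mid (fun n => cf (trc α S) s n * χ (n : ZMod q)) hy0 (PY (X : ℝ))
        (fun p hp => by
          rw [mem_PY (Nat.cast_nonneg X)]
          exact_mod_cast (show (p : ℕ) ≤ X by omega))]
      have e4 : (PY (X : ℝ)).filter (fun p : Nat.Primes => p ∉ PY y ∧ (p : ℕ) < 2 ^ (J + 1)) =
          (PY (X : ℝ)).filter (fun p => p ∉ PY y) := by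
        refine Finset.filter_congr fun p hp => ?_
        rw [mem_PY (Nat.cast_nonneg X)] at hp
        have : (p : ℕ) ≤ X := by exact_mod_cast hp
        constructor
        · exact fun h => h.1
        · exact fun h => ⟨h, by omega⟩
      rw [e4]
      exact Finset.sum_congr rfl fun p _ => (tm_zero α S χ s p).symm
    rw [e3, e1, Finset.sum_sub_distrib, Finset.sum_sub_distrib,
      ← Finset.sum_filter_add_sum_filter_not (PY (X : ℝ)) (fun p => p ∈ PY y)]
    have e5 : (PY (X : ℝ)).filter (fun p => p ∈ PY y) = PY y := by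
      ext p
      rw [mem_filter]
      exact ⟨fun h => h.2, fun h => ⟨hsub h, h⟩⟩
    rw [e5]
    ring
  rw [e2]
  refine (norm_add_le _ _).trans ?_
  have b1 : ‖∑ p ∈ PY y, (∑ k ∈ range (Nat.log p X), tm (bα β S) s (p, k) - lα β S s p)‖ ≤
      2 * N * y / 2 ^ J := by
    have h1 : ∀ p ∈ PY y, ‖∑ k ∈ range (Nat.log p X), tm (bα β S) s (p, k) - lα β S s p‖ ≤
        2 * N / 2 ^ J := by
      intro p _
      refine (part_bound hβ1 hs1 p _).trans ?_
      rw [div_pow, one_pow, mul_one_div]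
      refine div_le_div_of_nonneg_left (by positivity) (by positivity) ?_
      have h2 := Nat.lt_pow_succ_log_self p.2.one_lt X
      have h3 : 2 ^ J ≤ (p : ℕ) ^ (Nat.log p X + 1) := (hX1.trans h2.le)
      exact_mod_cast h3
    refine (norm_sum_le_of_le _ h1).trans ?_
    rw [sum_const, nsmul_eq_mul]
    have hcard : ((PY y).card : ℝ) ≤ y := by
      have h2 : (PY y).card ≤ ⌊y⌋₊ := by
        have h3 : (PY y).image (fun p : Nat.Primes => (p : ℕ)) ⊆ Icc 1 ⌊y⌋₊ := by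
          intro n hn
          rw [mem_image] at hn
          obtain ⟨p, hp, rfl⟩ := hn
          rw [mem_PY hy0] at hp
          rw [mem_Icc]
          exact ⟨p.2.one_lt.le, Nat.le_floor hp⟩
        have h4 := card_le_card h3
        rwa [Finset.card_image_of_injective _ coe_inj, Nat.card_Icc, Nat.add_sub_cancel] at h4
      have h3 : (⌊y⌋₊ : ℝ) ≤ y := Nat.floor_le hy0
      have h4 : ((PY y).card : ℝ) ≤ ⌊y⌋₊ := by exact_mod_cast h2
      linarith
    calc ((PY y).card : ℝ) * (2 * N / 2 ^ J) ≤ y * (2 * N / 2 ^ J) :=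
          mul_le_mul_of_nonneg_right hcard (by positivity)
      _ = _ := by ring
  have b2 : ‖∑ p ∈ (PY (X : ℝ)).filter (fun p => p ∉ PY y),
        (∑ k ∈ range (Nat.log p X), tm (bα β S) s (p, k) - tm (bα β S) s (p, 0))‖ ≤ 8 * N / y := by
    have h1 : ∀ p ∈ (PY (X : ℝ)).filter (fun p => p ∉ PY y),
        ‖∑ k ∈ range (Nat.log p X), tm (bα β S) s (p, k) - tm (bα β S) s (p, 0)‖ ≤
          4 * N * (1 / ((p : ℕ) : ℝ) ^ 2) := by
      intro p hp
      rw [mem_filter, mem_PY (Nat.cast_nonneg X)] at hp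
      have hpX : (p : ℕ) ≤ X := by exact_mod_cast hp.1
      have hlog : 1 ≤ Nat.log p X := Nat.log_pos p.2.one_lt hpX
      have hp2 : (2 : ℝ) ≤ (p : ℕ) := by exact_mod_cast p.2.two_le
      have hr1 : 1 / ((p : ℕ) : ℝ) ≤ 1 := by
        rw [div_le_one (by linarith)]; linarith
      have h2 := part_bound hβ1 hs1 p (Nat.log p X)
      have h3 := part_bound hβ1 hs1 p 1
      rw [Finset.sum_range_one] at h3
      have h4 : (1 / ((p : ℕ) : ℝ)) ^ (Nat.log p X + 1) ≤ (1 / ((p : ℕ) : ℝ)) ^ 2 :=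
        pow_le_pow_of_le_one (by positivity) hr1 (by omega)
      have h5 : 2 * N * (1 / ((p : ℕ) : ℝ)) ^ (Nat.log p X + 1) ≤
          2 * N * (1 / ((p : ℕ) : ℝ)) ^ 2 := mul_le_mul_of_nonneg_left h4 (by positivity)
      have e : (1 / ((p : ℕ) : ℝ)) ^ 2 = 1 / ((p : ℕ) : ℝ) ^ 2 := by rw [div_pow, one_pow]
      rw [← e]
      calc _ = ‖(∑ k ∈ range (Nat.log p X), tm (bα β S) s (p, k) - lα β S s p) -
            (tm (bα β S) s (p, 0) - lα β S s p)‖ := by congr 1; ring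
        _ ≤ _ := (norm_sub_le _ _).trans (by linarith)
    refine (norm_sum_le_of_le _ h1).trans ?_
    rw [← Finset.mul_sum, sum_primes_coe _ (fun n => 1 / (n : ℝ) ^ 2)]
    have h1 := sum_inv_sq_tail (m := ⌊y⌋₊ + 1) (by
        have : 2 ≤ ⌊y⌋₊ := Nat.le_floor (by exact_mod_cast hy)
        omega)
      (((PY (X : ℝ)).filter (fun p => p ∉ PY y)).image (fun p : Nat.Primes => (p : ℕ))) (by
        intro n hn
        rw [mem_image] at hn
        obtain ⟨p, hp, rfl⟩ := hn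
        rw [mem_filter, mem_PY hy0, not_le] at hp
        have := (Nat.floor_lt hy0).2 hp.2
        omega)
    have h2 : 2 / (((⌊y⌋₊ + 1 : ℕ)) : ℝ) ≤ 2 / y := by
      refine div_le_div_of_nonneg_left (by norm_num) (by linarith) ?_
      push_cast
      exact (Nat.lt_floor_add_one y).le
    calc 4 * (N : ℝ) * _ ≤ 4 * N * (2 / y) := mul_le_mul_of_nonneg_left (h1.trans h2) (by positivity)
      _ = 8 * N / y := by ring
  calc _ ≤ 2 * N * y / 2 ^ J + (8 * N / y + ‖TS (trc α S) y J χ s‖) :=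
        add_le_add b1 ((norm_add_le _ _).trans (add_le_add_left b2 _))
    _ = _ := by ring

end Pool.Agent.TH933.TE
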