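import Pool.Agent.TH933.TE.E5

/-!
# The choice of the parameters
-/

set_option autoImplicit false

open Finset Real Filter

namespace Pool.Agent.TH933.TE

/-- the conditions on `Q` -/
structure Good (N : ℕ) (ε A : ℝ) (Q T J R : ℕ) : Prop where
  hL1 : Real.exp 1 ≤ Real.log Q
  hL : 16 ≤ Real.log Q
  hN : 2 * (N : ℝ) ^ 2 ≤ Real.log Q
  hη : Real.log 12 + 9 * Real.log (Real.log Q) ≤ ε / 4 / 2 * Real.log Q
  hcard : ((R : ℝ) + 1) * (2 * T * R + 1) * (J + 1) * (18 * (N : ℝ) ^ 2 * ((J : ℝ) + 1) ^ 4 +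
    (Q : ℝ) ^ (ε / 4)) ≤ (Q : ℝ) ^ ε
  hR : 1 ≤ R
  hR2 : 8 * (N : ℝ) * ((J : ℝ) + 1) ^ 2 * Real.log Q ≤ R
  hy : 2 ≤ (Real.log Q) ^ A
  hyJ : (Real.log Q) ^ A ≤ 2 ^ J
  hJ : 1 ≤ J
  hT : (Q : ℝ) ^ (ε / 100) ≤ T
  h1 : 2 * N / (Real.log Q) ^ A + 2 * N / (Real.log Q) ^ A +
    N * (((2 : ℝ) ^ J) ^ (-((Q : ℝ) ^ (-(ε / 50)))) / (Q : ℝ) ^ (-(ε / 50))) ≤ 1 / Real.log Q
  h2 : 8 * N / (Real.log Q) ^ A + 2 * N * (Real.log Q) ^ A / 2 ^ J ≤ 1 / Real.log Q
  h3 : (2 * (T : ℝ)) * ((Real.log Q) ^ 2 * (64800 * (N : ℝ) ^ 2 / (J * Real.log 2))) ≤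
    (Q : ℝ) ^ (-(ε / 100))

lemma ceil_two {x : ℝ} (hx : 1 ≤ x) : (⌈x⌉₊ : ℝ) ≤ 2 * x := by
  have := Nat.ceil_lt_add_one (show 0 ≤ x by linarith)
  linarith

theorem params (N : ℕ) {ε A : ℝ} (hε : 0 < ε) (hA : 3 ≤ A) :
    ∀ᶠ Q : ℕ in atTop, Good N ε A Q ⌈(Q : ℝ) ^ (ε / 50)⌉₊ ⌈(Q : ℝ) ^ (ε / 50 * 2)⌉₊
      ⌈(Q : ℝ) ^ (ε / 50 * 6)⌉₊ := by
  have hc : (0 : ℝ) < ε / 50 := by positivity
  have hcast := tendsto_natCast_atTop_atTop (R := ℝ)
  have hlog := Real.tendsto_log_atTop.comp hcast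
  have ht : Tendsto (fun Q : ℕ => (Q : ℝ) ^ (ε / 50)) atTop atTop :=
    (tendsto_rpow_atTop hc).comp hcast
  have g1 := hlog.eventually (eventually_ge_atTop (16 + 2 * (N : ℝ) ^ 2))
  have g2 := hlog.eventually ((isLittleO_log_id_atTop).def (show (0 : ℝ) < ε / 144 by positivity))
  have g2' := hlog.eventually (eventually_ge_atTop (16 * Real.log 12 / ε))
  have g3 := ((tendsto_rpow_atTop (show 0 < ε * 0.45 by positivity)).comp hcast).eventually
    (eventually_ge_atTop (81 * (1458 * (N : ℝ) ^ 2 + 1)))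
  have g4 := hcast.eventually ((isLittleO_log_rpow_atTop (show 0 < ε / 50 * 2 by positivity)).def
    (show (0 : ℝ) < 1 / (72 * N + 1) by positivity))
  have g5 := hcast.eventually ((isLittleO_log_rpow_rpow_atTop (A + 1)
    (show 0 < ε / 50 * 2 by positivity)).def (show (0 : ℝ) < 1 / (4 * N + 1) by positivity))
  have g6 := hcast.eventually ((isLittleO_log_rpow_atTop hc).def (show (0 : ℝ) < 1 by norm_num))
  have g7 : ∀ᶠ t : ℝ in atTop, 2 * N * t ^ 2 ≤ (2 : ℝ) ^ t := by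
    have h := (isLittleO_pow_exp_pos_mul_atTop 2 (show 0 < Real.log 2 from
      Real.log_pos (by norm_num))).def (show (0 : ℝ) < 1 / (2 * N + 1) by positivity)
    filter_upwards [h] with t ht
    rw [norm_of_nonneg (by positivity), norm_of_nonneg (by positivity)] at ht
    rw [Real.rpow_def_of_pos (by norm_num)]
    have h1 : 0 < Real.exp (Real.log 2 * t) := Real.exp_pos _
    have h2 : 2 * (N : ℝ) * (1 / (2 * N + 1)) ≤ 1 := by
      rw [mul_one_div, div_le_one (by positivity)]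
      linarith
    calc 2 * (N : ℝ) * t ^ 2 ≤ 2 * N * (1 / (2 * N + 1) * Real.exp (Real.log 2 * t)) :=
          mul_le_mul_of_nonneg_left ht (by positivity)
      _ = (2 * N * (1 / (2 * N + 1))) * Real.exp (Real.log 2 * t) := by ring
      _ ≤ 1 * Real.exp (Real.log 2 * t) := mul_le_mul_of_nonneg_right h2 h1.le
      _ = _ := one_mul _
  have g7' := ht.eventually g7
  have g8 := hcast.eventually ((isLittleO_log_rpow_rpow_atTop 2
    (show 0 < ε / 100 by positivity)).def (show (0 : ℝ) < 1 / (518400 * N ^ 2 + 1) by positivity))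
  have g9 := ht.eventually (eventually_ge_atTop 1)
  filter_upwards [g1, g2, g2', g3, g4, g5, g6, g7', g8, g9] with Q a1 a2 a2' a3 a4 a5 a6 a7 a8 a9
  simp only [Function.comp_apply] at a1 a2 a2' a3
  obtain ⟨L, hLdef⟩ : ∃ L, L = Real.log Q := ⟨_, rfl⟩
  obtain ⟨t, htdef⟩ : ∃ t, t = (Q : ℝ) ^ (ε / 50) := ⟨_, rfl⟩
  rw [← hLdef] at a1 a2 a2' a4 a5 a6 a8
  rw [← htdef] at a7 a9
  have hNN : (0 : ℝ) ≤ (N : ℝ) ^ 2 := by positivity
  have hN0 : (0 : ℝ) ≤ N := Nat.cast_nonneg N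
  have hNsq : (N : ℝ) ≤ (N : ℝ) ^ 2 := by
    rcases Nat.eq_zero_or_pos N with h | h
    · rw [h]; simp
    · have : (1 : ℝ) ≤ N := by exact_mod_cast h
      nlinarith
  have hL16 : 16 ≤ L := by linarith
  have hL0 : 0 < L := by linarith
  have hQ0 : (0 : ℝ) < Q := by
    rcases Nat.eq_zero_or_pos Q with h | h
    · rw [h] at hLdef; simp at hLdef; linarith
    · exact_mod_cast h
  have hQ1 : (1 : ℝ) ≤ Q := by
    have : 0 < Q := by exact_mod_cast hQ0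
    exact_mod_cast this
  have ht0 : 0 < t := by linarith
  have et2 : (Q : ℝ) ^ (ε / 50 * 2) = t ^ 2 := by
    rw [htdef, ← Real.rpow_natCast, ← Real.rpow_mul hQ0.le]; norm_num
  have et6 : (Q : ℝ) ^ (ε / 50 * 6) = t ^ 6 := by
    rw [htdef, ← Real.rpow_natCast, ← Real.rpow_mul hQ0.le]; norm_num
  rw [et2] at a4 a5
  have hT2 := ceil_two a9
  have ht21 : 1 ≤ t ^ 2 := one_le_pow₀ a9
  have ht61 : 1 ≤ t ^ 6 := one_le_pow₀ a9
  obtain ⟨T, hTdef⟩ : ∃ T, T = ⌈t⌉₊ := ⟨_, rfl⟩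
  obtain ⟨J, hJdef⟩ : ∃ J, J = ⌈t ^ 2⌉₊ := ⟨_, rfl⟩
  obtain ⟨R, hRdef⟩ : ∃ R, R = ⌈t ^ 6⌉₊ := ⟨_, rfl⟩
  have hJ2 : (J : ℝ) ≤ 2 * t ^ 2 := by rw [hJdef]; exact ceil_two ht21
  have hJ1 : t ^ 2 ≤ (J : ℝ) := by rw [hJdef]; exact Nat.le_ceil _
  have hR2 : (R : ℝ) ≤ 2 * t ^ 6 := by rw [hRdef]; exact ceil_two ht61
  have hR1 : t ^ 6 ≤ (R : ℝ) := by rw [hRdef]; exact Nat.le_ceil _
  have hT1 : t ≤ (T : ℝ) := by rw [hTdef]; exact Nat.le_ceil _
  have hT2' : (T : ℝ) ≤ 2 * t := by rw [hTdef]; exact hT2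
  rw [← htdef, et2, et6, ← hTdef, ← hJdef, ← hRdef]
  have b4 : 72 * N * L ≤ t ^ 2 := by
    rw [norm_of_nonneg hL0.le, norm_of_nonneg (by positivity)] at a4
    have h2 : 72 * (N : ℝ) * (1 / (72 * N + 1)) ≤ 1 := by
      rw [mul_one_div, div_le_one (by positivity)]; linarith
    calc 72 * (N : ℝ) * L ≤ 72 * N * (1 / (72 * N + 1) * t ^ 2) :=
          mul_le_mul_of_nonneg_left a4 (by positivity)
      _ = (72 * N * (1 / (72 * N + 1))) * t ^ 2 := by ring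
      _ ≤ 1 * t ^ 2 := mul_le_mul_of_nonneg_right h2 (by positivity)
      _ = _ := one_mul _
  have b5 : (4 * N + 1) * L ^ (A + 1) ≤ t ^ 2 := by
    rw [norm_of_nonneg (by positivity), norm_of_nonneg (by positivity)] at a5
    rw [one_div, ← div_eq_inv_mul, le_div_iff₀ (by positivity)] at a5
    linarith
  have b6 : L ≤ t := by
    rw [norm_of_nonneg hL0.le, norm_of_nonneg (by positivity), one_mul, ← htdef] at a6
    exact a6
  have hLA1 : L ^ (A + 1) = L ^ A * L := by rw [Real.rpow_add_one hL0.ne']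
  have hLA : L ^ 3 ≤ L ^ A := by
    rw [← Real.rpow_natCast]
    exact Real.rpow_le_rpow_of_exponent_le (by linarith) (by exact_mod_cast hA)
  have hLA0 : 0 < L ^ A := by positivity
  have hJpow : (J : ℝ) ≤ 2 ^ J := by exact_mod_cast (Nat.lt_two_pow_self (n := J)).le
  have hlA : L ^ A ≤ L ^ (A + 1) := Real.rpow_le_rpow_of_exponent_le (by linarith) (by linarith)
  have hN2L : 2 * (N : ℝ) ^ 2 ≤ L := by linarith
  have hNL : (N : ℝ) ≤ L / 2 := by linarith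
  refine ⟨?_, ?_, ?_, ?_, ?_, ?_, ?_, ?_, ?_, ?_, ?_, ?_, ?_, ?_⟩
  · rw [← hLdef]
    have := Real.exp_one_lt_d9
    linarith
  · rw [← hLdef]; exact hL16
  · rw [← hLdef]; exact hN2L
  · rw [← hLdef]
    have hl0 : 0 ≤ Real.log L := Real.log_nonneg (by linarith)
    rw [id, norm_of_nonneg hl0, norm_of_nonneg hL0.le] at a2
    rw [div_le_iff₀ hε] at a2'
    linarith
  · -- the number of exceptional characters
    have k1 : (R : ℝ) + 1 ≤ 3 * t ^ 6 := by linarith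
    have k2 : 2 * (T : ℝ) * R + 1 ≤ 9 * t ^ 7 := by
      have h := mul_le_mul hT2' hR2 (Nat.cast_nonneg R) (by positivity)
      have h7 : 1 ≤ t ^ 7 := one_le_pow₀ a9
      have e : 2 * t * (2 * t ^ 6) = 4 * t ^ 7 := by ring
      rw [e] at h
      have e2 : 2 * (T : ℝ) * R + 1 = 2 * ((T : ℝ) * R) + 1 := by ring
      rw [e2]
      linarith
    have k3 : (J : ℝ) + 1 ≤ 3 * t ^ 2 := by linarith
    have k4 : ((J : ℝ) + 1) ^ 4 ≤ 81 * t ^ 8 := by
      have := pow_le_pow_left₀ (by positivity) k3 4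
      have e : (3 * t ^ 2) ^ 4 = 81 * t ^ 8 := by ring
      rwa [e] at this
    have k5 : 18 * (N : ℝ) ^ 2 * ((J : ℝ) + 1) ^ 4 + (Q : ℝ) ^ (ε / 4) ≤
        (1458 * (N : ℝ) ^ 2 + 1) * (Q : ℝ) ^ (ε / 4) := by
      have e8 : t ^ 8 ≤ (Q : ℝ) ^ (ε / 4) := by
        rw [htdef, ← Real.rpow_natCast, ← Real.rpow_mul hQ0.le]
        refine Real.rpow_le_rpow_of_exponent_le hQ1 ?_
        push_cast
        linarith
      have h0 : 18 * (N : ℝ) ^ 2 * ((J : ℝ) + 1) ^ 4 ≤ 18 * (N : ℝ) ^ 2 * (81 * (Q : ℝ) ^ (ε / 4)) :=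
        mul_le_mul_of_nonneg_left (k4.trans (by linarith)) (by positivity)
      linarith
    have hQε : (0 : ℝ) < (Q : ℝ) ^ (ε / 4) := by positivity
    calc ((R : ℝ) + 1) * (2 * T * R + 1) * (J + 1) * (18 * (N : ℝ) ^ 2 * ((J : ℝ) + 1) ^ 4 +
          (Q : ℝ) ^ (ε / 4))
        ≤ (3 * t ^ 6) * (9 * t ^ 7) * (3 * t ^ 2) * ((1458 * (N : ℝ) ^ 2 + 1) * (Q : ℝ) ^ (ε / 4)) := by
          gcongr
      _ = (81 * (1458 * (N : ℝ) ^ 2 + 1)) * (t ^ 15 * (Q : ℝ) ^ (ε / 4)) := by ring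
      _ ≤ (Q : ℝ) ^ (ε * 0.45) * (t ^ 15 * (Q : ℝ) ^ (ε / 4)) :=
          mul_le_mul_of_nonneg_right a3 (by positivity)
      _ = (Q : ℝ) ^ ε := by
          rw [htdef, ← Real.rpow_natCast, ← Real.rpow_mul hQ0.le, ← Real.rpow_add hQ0,
            ← Real.rpow_add hQ0]
          congr 1
          push_cast
          ring
  · have : (1 : ℝ) ≤ R := by linarith
    exact_mod_cast this
  · rw [← hLdef]
    have k3 : (J : ℝ) + 1 ≤ 3 * t ^ 2 := by linarith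
    have k4 : ((J : ℝ) + 1) ^ 2 ≤ 9 * t ^ 4 := by
      have := pow_le_pow_left₀ (by positivity) k3 2
      have e : (3 * t ^ 2) ^ 2 = 9 * t ^ 4 := by ring
      rwa [e] at this
    calc 8 * (N : ℝ) * ((J : ℝ) + 1) ^ 2 * L ≤ 8 * N * (9 * t ^ 4) * L := by gcongr
      _ = (72 * N * L) * t ^ 4 := by ring
      _ ≤ t ^ 2 * t ^ 4 := mul_le_mul_of_nonneg_right b4 (by positivity)
      _ = t ^ 6 := by ring
      _ ≤ R := hR1
  · rw [← hLdef]
    have : L ≤ L ^ 3 := le_self_pow₀ (by linarith) (by norm_num)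
    linarith
  · rw [← hLdef]
    have h0 : 0 ≤ 4 * (N : ℝ) * L ^ (A + 1) := by positivity
    have h1 : L ^ (A + 1) ≤ t ^ 2 := by linarith
    linarith
  · have : (1 : ℝ) ≤ J := by linarith
    exact_mod_cast this
  · refine le_trans ?_ hT1
    rw [htdef]
    exact Real.rpow_le_rpow_of_exponent_le hQ1 (by linarith)
  · rw [← hLdef]
    have hu : (Q : ℝ) ^ (-(ε / 50)) = 1 / t := by
      rw [Real.rpow_neg hQ0.le, htdef, one_div]
    rw [hu]
    have k1 : 2 * (N : ℝ) / L ^ A ≤ 1 / (4 * L) := by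
      rw [div_le_div_iff₀ hLA0 (by positivity)]
      have m1 : (N : ℝ) * L ≤ L / 2 * L := mul_le_mul_of_nonneg_right hNL hL0.le
      have m2 : 16 * L ^ 2 ≤ L * L ^ 2 := mul_le_mul_of_nonneg_right hL16 (by positivity)
      have m3 : 0 ≤ L ^ 2 := by positivity
      have m4 : L * L ^ 2 = L ^ 3 := by ring
      have m5 : L / 2 * L = L ^ 2 / 2 := by ring
      linarith
    have k2 : N * (((2 : ℝ) ^ J) ^ (-(1 / t)) / (1 / t)) ≤ 1 / (2 * L) := by
      have h1 : ((2 : ℝ) ^ J) ^ (-(1 / t)) ≤ ((2 : ℝ) ^ t)⁻¹ := by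
        rw [← Real.rpow_natCast, ← Real.rpow_mul (by norm_num), ← Real.rpow_neg (by norm_num)]
        refine Real.rpow_le_rpow_of_exponent_le (by norm_num) ?_
        have h2 : t ≤ J * (1 / t) := by
          rw [mul_one_div, le_div_iff₀ ht0, ← sq]
          exact hJ1
        linarith
      have h3 : (0 : ℝ) < (2 : ℝ) ^ t := by positivity
      have h4 : N * (((2 : ℝ) ^ J) ^ (-(1 / t)) / (1 / t)) ≤ N * (((2 : ℝ) ^ t)⁻¹ * t) := by
        refine mul_le_mul_of_nonneg_left ?_ hN0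
        rw [div_div_eq_mul_div, div_one]
        exact mul_le_mul_of_nonneg_right h1 ht0.le
      refine h4.trans ?_
      have e : (N : ℝ) * (((2 : ℝ) ^ t)⁻¹ * t) = N * t / (2 : ℝ) ^ t := by
        rw [div_eq_mul_inv]; ring
      rw [e, div_le_div_iff₀ h3 (by positivity)]
      have h5 : (N : ℝ) * t * (2 * L) ≤ 2 * N * t ^ 2 := by
        have h6 : (N : ℝ) * t * (2 * L) ≤ N * t * (2 * t) :=
          mul_le_mul_of_nonneg_left (by linarith) (by positivity)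
        calc _ ≤ _ := h6
          _ = _ := by ring
      linarith
    have e : 1 / (4 * L) + 1 / (4 * L) + 1 / (2 * L) = 1 / L := by field_simp; norm_num
    linarith
  · rw [← hLdef]
    have k1 : 8 * (N : ℝ) / L ^ A ≤ 1 / (2 * L) := by
      rw [div_le_div_iff₀ hLA0 (by positivity)]
      have m1 : (N : ℝ) * L ≤ L / 2 * L := mul_le_mul_of_nonneg_right hNL hL0.le
      have m2 : 16 * L ^ 2 ≤ L * L ^ 2 := mul_le_mul_of_nonneg_right hL16 (by positivity)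
      have m3 : 0 ≤ L ^ 2 := by positivity
      have m4 : L * L ^ 2 = L ^ 3 := by ring
      have m5 : L / 2 * L = L ^ 2 / 2 := by ring
      linarith
    have k2 : 2 * (N : ℝ) * L ^ A / 2 ^ J ≤ 1 / (2 * L) := by
      rw [div_le_div_iff₀ (by positivity) (by positivity)]
      have h0 : 2 * (N : ℝ) * L ^ A * (2 * L) = 4 * N * L ^ (A + 1) := by rw [hLA1]; ring
      rw [h0]
      have h1 : 0 ≤ L ^ (A + 1) := by positivity
      linarith
    have e : 1 / (2 * L) + 1 / (2 * L) = 1 / L := by field_simp; norm_num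
    linarith
  · rw [← hLdef]
    have hl2 : 0.5 < Real.log 2 := by
      have := Real.log_two_gt_d9
      linarith
    have hu : (Q : ℝ) ^ (-(ε / 100)) = t⁻¹ * (Q : ℝ) ^ (ε / 100) := by
      rw [htdef, ← Real.rpow_neg hQ0.le, ← Real.rpow_add hQ0]
      congr 1
      ring
    rw [hu]
    have b8 : 518400 * (N : ℝ) ^ 2 * L ^ 2 ≤ (Q : ℝ) ^ (ε / 100) := by
      have hL2 : L ^ (2 : ℝ) = L ^ 2 := by
        rw [← Real.rpow_natCast]; norm_num
      rw [hL2, norm_of_nonneg (by positivity), norm_of_nonneg (by positivity), one_div,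
        ← div_eq_inv_mul, le_div_iff₀ (by positivity)] at a8
      have : 0 ≤ L ^ 2 := by positivity
      linarith
    have hden : t ^ 2 * 0.5 ≤ J * Real.log 2 :=
      mul_le_mul hJ1 hl2.le (by norm_num) (Nat.cast_nonneg J)
    have hden0 : 0 < (J : ℝ) * Real.log 2 := lt_of_lt_of_le (by positivity) hden
    have k1 : 64800 * (N : ℝ) ^ 2 / (J * Real.log 2) ≤ 129600 * (N : ℝ) ^ 2 / t ^ 2 := by
      rw [div_le_div_iff₀ hden0 (by positivity)]
      have m1 := mul_le_mul_of_nonneg_left hden (show 0 ≤ 129600 * (N : ℝ) ^ 2 by positivity)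
      linarith
    calc (2 * (T : ℝ)) * (L ^ 2 * (64800 * (N : ℝ) ^ 2 / (J * Real.log 2)))
        ≤ (2 * (2 * t)) * (L ^ 2 * (129600 * (N : ℝ) ^ 2 / t ^ 2)) := by gcongr
      _ = t⁻¹ * (518400 * (N : ℝ) ^ 2 * L ^ 2) := by field_simp; ring
      _ ≤ _ := mul_le_mul_of_nonneg_left b8 (by positivity)

end Pool.Agent.TH933.TE
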