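import Pool.Agent.TH933.TE.E6
import Pool.Agent.Helper559.Mertens

/-!
# Twisted Euler products at the edge: the theorem for systems of eigenvalues
-/

set_option autoImplicit false

open Finset Real Filter Topology MeasureTheory
open scoped Classical ENNReal

namespace Pool.Agent.TH933.TE

open Pool.Agent.TH339.MP (PP tm FF TX mem_TX PS qq wt bα lα fα hasSum_lα norm_bα summable_tm small
  norm_pr_cpow tm_eq exp_lα hasProd_α bl ap boundary ae_notMem bl_angle)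
open Pool.Agent.W350.Edge (divSet)

variable {N : ℕ}

lemma TS_two {α : ℕ → Fin N → ℂ} {S : Finset ℕ}
    (hα : ∀ p : ℕ, p.Prime → p ∉ S → ∀ j, ‖α p j‖ ≤ 1) {q : ℕ} (χ : DirichletCharacter ℂ q)
    {y : ℝ} (hy : 2 ≤ y) (J : ℕ) {s : ℂ} (hs : 2 ≤ s.re) :
    ‖TS (trc α S) y J χ s‖ ≤ 2 * N / y := by
  rw [TS_eq]
  have hy0 : 0 ≤ y := by linarith
  have h1 : ∀ n ∈ (Ico 1 (2 ^ (J + 1))).filter (fun n : ℕ => n.Prime ∧ y < (n : ℝ)),
      ‖cf (trc α S) s n * χ (n : ZMod q)‖ ≤ N * (1 / (n : ℝ) ^ 2) := by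
    intro n hn
    rw [mem_filter, mem_Ico] at hn
    unfold cf
    rw [norm_mul, norm_mul, Complex.norm_natCast_cpow_of_pos hn.1.1]
    have h2 := norm_trc hα n
    have hn1 : (1 : ℝ) ≤ n := by exact_mod_cast hn.1.1
    have h3 : (n : ℝ) ^ ((-s).re) ≤ 1 / (n : ℝ) ^ 2 := by
      rw [one_div, ← Real.rpow_natCast, ← Real.rpow_neg (by linarith), Complex.neg_re]
      exact Real.rpow_le_rpow_of_exponent_le hn1 (by push_cast; linarith)
    have h4 : ‖χ (n : ZMod q)‖ ≤ 1 := DirichletCharacter.norm_le_one χ _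
    calc _ ≤ ‖trc α S n‖ * (n : ℝ) ^ ((-s).re) * 1 :=
          mul_le_mul_of_nonneg_left h4 (by positivity)
      _ ≤ _ := by rw [mul_one]; exact mul_le_mul h2 h3 (by positivity) (Nat.cast_nonneg N)
  refine (norm_sum_le_of_le _ h1).trans ?_
  rw [← Finset.mul_sum]
  have h2 := sum_inv_sq_tail (m := ⌊y⌋₊ + 1) (by
      have : 2 ≤ ⌊y⌋₊ := Nat.le_floor (by exact_mod_cast hy)
      omega)
    ((Ico 1 (2 ^ (J + 1))).filter (fun n : ℕ => n.Prime ∧ y < (n : ℝ))) (by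
      intro n hn
      rw [mem_filter] at hn
      have := (Nat.floor_lt hy0).2 hn.2.2
      omega)
  have h3 : 2 / (((⌊y⌋₊ + 1 : ℕ)) : ℝ) ≤ 2 / y := by
    refine div_le_div_of_nonneg_left (by norm_num) (by linarith) ?_
    push_cast
    exact (Nat.lt_floor_add_one y).le
  calc (N : ℝ) * _ ≤ N * (2 / y) := mul_le_mul_of_nonneg_left (h2.trans h3) (Nat.cast_nonneg N)
    _ = 2 * N / y := by ring

/-- the short product -/
noncomputable def sp (α : ℕ → Fin N → ℂ) (S : Finset ℕ) (y : ℝ) (s : ℂ) : ℂ :=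
  ∏ p ∈ PY y, fα α S s p

lemma sp_eq {α : ℕ → Fin N → ℂ} {S : Finset ℕ}
    (hα : ∀ p : ℕ, p.Prime → p ∉ S → ∀ j, ‖α p j‖ ≤ 1) (y : ℝ) {s : ℂ} (hs : 1 ≤ s.re) :
    sp α S y s = Complex.exp (∑ p ∈ PY y, lα α S s p) := by
  unfold sp
  rw [Complex.exp_sum]
  exact Finset.prod_congr rfl fun p _ => (exp_lα hα p hs).symm

/-- the half-plane part -/
theorem half {α : ℕ → Fin N → ℂ} {S : Finset ℕ}
    (hα : ∀ p : ℕ, p.Prime → p ∉ S → ∀ j, ‖α p j‖ ≤ 1) {ε A : ℝ} {Q T J R : ℕ}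
    (hG : Good N ε A Q T J R) {q : ℕ} (hq : 1 ≤ q) (hqQ : q ≤ Q) (χ : DirichletCharacter ℂ q)
    (hχ : χ.IsPrimitive)
    (hE : (⟨q, χ⟩ : Σ q : ℕ, DirichletCharacter ℂ q) ∉ EX (trc α S) ((Real.log Q) ^ A) Q J R T)
    {s : ℂ} (h1 : 1 + (Q : ℝ) ^ (-(ε / 50)) ≤ s.re) (h3 : |s.im| ≤ T) :
    ‖FF (bα (tw α χ) S) s - ∑ p ∈ PY ((Real.log Q) ^ A), lα (tw α χ) S s p‖ ≤ 2 / Real.log Q := by
  have hL16 := hG.hL
  have hL0 : 0 < Real.log Q := by linarith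
  have hQ0 : (0 : ℝ) < Q := by
    rcases Nat.eq_zero_or_pos Q with h | h
    · rw [h] at hL0; simp at hL0
    · exact_mod_cast h
  have hu : 0 < (Q : ℝ) ^ (-(ε / 50)) := Real.rpow_pos_of_pos hQ0 _
  have hs1 : 1 ≤ s.re := by linarith
  have ht := tail_bound hα χ hG.hy J hu h1
  have hg := hG.h1
  have hy0 : 0 < (Real.log Q) ^ A := by positivity
  have hN0 : 0 ≤ 2 * (N : ℝ) / (Real.log Q) ^ A := by positivity
  have h0 : 0 < 1 / Real.log Q := by positivity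
  have e2 : 2 / Real.log Q = 1 / Real.log Q + 1 / Real.log Q := by ring
  rcases le_or_gt s.re 2 with h2 | h2
  · have hTS := TS_le (norm_trc hα) hL16 hG.hR hG.hR2 hq hqQ χ hχ hE hs1 h2 h3
    linarith
  · have hTS := TS_two hα χ hG.hy J h2.le
    linarith

/-- the size of the short product -/
theorem size : ∃ C : ℝ, 1 ≤ C ∧ ∀ (N : ℕ) (α : ℕ → Fin N → ℂ) (S : Finset ℕ)
    (_ : ∀ p : ℕ, p.Prime → p ∉ S → ∀ j, ‖α p j‖ ≤ 1) (y : ℝ) (_ : 3 ≤ y) (s : ℂ)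
    (_ : 1 ≤ s.re), ‖∑ p ∈ PY y, lα α S s p‖ ≤ N * (Real.log (Real.log y) + C) := by
  obtain ⟨C, hC, hm⟩ := Pool.Agent.Helper559.mertens
  refine ⟨C + 2, by linarith, ?_⟩
  intro N α S hα y hy s hs
  have hy0 : 0 ≤ y := by linarith
  have h1 : ∀ p ∈ PY y, ‖lα α S s p‖ ≤ N * (1 / ((p : ℕ) : ℝ)) + 2 * N * (1 / ((p : ℕ) : ℝ) ^ 2) := by
    intro p _
    have h2 := part_bound hα hs p 1
    rw [Finset.sum_range_one] at h2
    have h3 := norm_tm_le hα hs p 0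
    rw [zero_add, pow_one] at h3
    have h4 : ‖lα α S s p‖ ≤ ‖tm (bα α S) s (p, 0)‖ + ‖tm (bα α S) s (p, 0) - lα α S s p‖ := by
      calc ‖lα α S s p‖ = ‖tm (bα α S) s (p, 0) - (tm (bα α S) s (p, 0) - lα α S s p)‖ := by
            congr 1; ring
        _ ≤ _ := norm_sub_le _ _
    have h5 : (1 / ((p : ℕ) : ℝ)) ^ (1 + 1) = 1 / ((p : ℕ) : ℝ) ^ 2 := by
      rw [div_pow, one_pow]
    rw [h5] at h2
    linarith
  refine (norm_sum_le_of_le _ h1).trans ?_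
  rw [Finset.sum_add_distrib, ← Finset.mul_sum, ← Finset.mul_sum,
    sum_primes_coe _ (fun n => 1 / (n : ℝ)), sum_primes_coe _ (fun n => 1 / (n : ℝ) ^ 2)]
  have him : (PY y).image (fun p : Nat.Primes => (p : ℕ)) = (Icc 1 ⌊y⌋₊).filter Nat.Prime := by
    ext n
    rw [mem_image, mem_filter, mem_Icc]
    constructor
    · rintro ⟨p, hp, rfl⟩
      rw [mem_PY hy0] at hp
      exact ⟨⟨p.2.one_lt.le, Nat.le_floor hp⟩, p.2⟩
    · rintro ⟨⟨h2, h3⟩, h4⟩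
      obtain ⟨P, hP⟩ : ∃ P : Nat.Primes, (P : ℕ) = n := ⟨⟨n, h4⟩, rfl⟩
      refine ⟨P, ?_, hP⟩
      rw [mem_PY hy0, hP]
      exact (Nat.le_floor_iff hy0).1 h3
  rw [him]
  have hfl : 3 ≤ ⌊y⌋₊ := Nat.le_floor (by exact_mod_cast hy)
  have h2 := hm ⌊y⌋₊ (by omega)
  rw [abs_le] at h2
  have h3 : ∑ n ∈ (Icc 1 ⌊y⌋₊).filter Nat.Prime, 1 / (n : ℝ) = Pool.Agent.Helper559.S ⌊y⌋₊ := rfl
  have h4 : Real.log (Real.log (⌊y⌋₊ : ℝ)) ≤ Real.log (Real.log y) := by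
    have h5 : (3 : ℝ) ≤ (⌊y⌋₊ : ℝ) := by exact_mod_cast hfl
    have h6 : (⌊y⌋₊ : ℝ) ≤ y := Nat.floor_le hy0
    have h7 : 0 < Real.log (⌊y⌋₊ : ℝ) := Real.log_pos (by linarith)
    exact Real.log_le_log h7 (Real.log_le_log (by linarith) h6)
  have h5 : ∑ n ∈ (Icc 1 ⌊y⌋₊).filter Nat.Prime, 1 / (n : ℝ) ^ 2 ≤ 1 := by
    have := sum_inv_sq_tail (m := 2) le_rfl ((Icc 1 ⌊y⌋₊).filter Nat.Prime) (by
      intro n hn
      rw [mem_filter] at hn
      exact hn.2.two_le)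
    norm_num at this
    simpa using this
  rw [h3]
  have hN : (0 : ℝ) ≤ N := Nat.cast_nonneg N
  have h6 : (N : ℝ) * Pool.Agent.Helper559.S ⌊y⌋₊ ≤ N * (Real.log (Real.log y) + C) :=
    mul_le_mul_of_nonneg_left (by linarith) hN
  have h7 : 2 * (N : ℝ) * ∑ n ∈ (Icc 1 ⌊y⌋₊).filter Nat.Prime, 1 / (n : ℝ) ^ 2 ≤ 2 * N * 1 :=
    mul_le_mul_of_nonneg_left h5 (by positivity)
  linarith

/-- Markov on the edge -/
lemma edge_measure {b : PP → ℂ} {M : ℝ} (hb : ∀ x, ‖b x‖ ≤ M / (x.2 + 1 : ℕ)) {X : ℕ} (hX : 2 ≤ X)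
    {δ : ℝ} (hδ : 0 < δ) (T : ℕ) :
    volume {τ : ℝ | |τ| ≤ T ∧ δ ≤ ‖bl b τ - PS b X τ‖} ≤
      ENNReal.ofReal ((2 * (T : ℝ)) * ((1 / δ) ^ 2 * (64800 * M ^ 2 / Real.log X))) := by
  obtain ⟨h1, _, h3⟩ := boundary hb
  have hlogX : 0 < Real.log X := Real.log_pos (by exact_mod_cast (show 1 < X by omega))
  have hunit : ∀ t : ℝ, volume ({τ : ℝ | δ ≤ ‖bl b τ - PS b X τ‖} ∩ Set.Icc t (t + 1)) ≤
      ENNReal.ofReal ((1 / δ) ^ 2 * (64800 * M ^ 2 / Real.log X)) := by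
    intro t
    have hmeas : AEMeasurable (fun u => ENNReal.ofReal (‖bl b u - PS b X u‖ ^ 2))
        (volume.restrict (Set.Icc t (t + 1))) := by
      have := (h1.sub (Pool.Agent.TH339.MP.continuous_PS b X).aemeasurable).norm.pow_const 2
      exact (ENNReal.measurable_ofReal.comp_aemeasurable this).restrict
    have h4 := meas_ge_le_lintegral_div hmeas (ε := ENNReal.ofReal (δ ^ 2))
      (by simpa using hδ.ne') ENNReal.ofReal_ne_top
    have h5 : volume ({τ : ℝ | δ ≤ ‖bl b τ - PS b X τ‖} ∩ Set.Icc t (t + 1)) ≤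
        (volume.restrict (Set.Icc t (t + 1)))
          {x | ENNReal.ofReal (δ ^ 2) ≤ ENNReal.ofReal (‖bl b x - PS b X x‖ ^ 2)} := by
      rw [Measure.restrict_apply' measurableSet_Icc]
      refine measure_mono fun τ hτ => ⟨?_, hτ.2⟩
      exact ENNReal.ofReal_le_ofReal (pow_le_pow_left₀ hδ.le hτ.1 2)
    refine h5.trans (h4.trans ?_)
    refine (ENNReal.div_le_div_right (h3 X hX t) _).trans ?_
    rw [← ENNReal.ofReal_div_of_pos (by positivity)]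
    refine ENNReal.ofReal_le_ofReal (le_of_eq ?_)
    field_simp
  have hcover : {τ : ℝ | |τ| ≤ T ∧ δ ≤ ‖bl b τ - PS b X τ‖} ⊆
      (⋃ m ∈ range (2 * T), ({τ : ℝ | δ ≤ ‖bl b τ - PS b X τ‖} ∩
        Set.Icc (-(T : ℝ) + m) (-(T : ℝ) + m + 1))) ∪ {(T : ℝ)} := by
    rintro τ ⟨h4, h5⟩
    rw [abs_le] at h4
    rcases eq_or_lt_of_le h4.2 with h6 | h6
    · right; exact h6
    · left
      simp only [Set.mem_iUnion]
      refine ⟨⌊τ + T⌋₊, ?_, h5, ?_, ?_⟩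
      · rw [mem_range, Nat.floor_lt (by linarith)]
        push_cast
        linarith
      · have := Nat.floor_le (show 0 ≤ τ + T by linarith)
        linarith
      · have := (Nat.lt_floor_add_one (τ + T)).le
        linarith
  refine (measure_mono hcover).trans ((measure_union_le _ _).trans ?_)
  rw [Real.volume_singleton, add_zero]
  refine (measure_biUnion_finset_le _ _).trans ?_
  refine (Finset.sum_le_sum fun m _ => hunit _).trans ?_
  rw [Finset.sum_const, card_range, nsmul_eq_mul]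
  obtain ⟨w, hw⟩ : ∃ w, w = (1 / δ) ^ 2 * (64800 * M ^ 2 / Real.log X) := ⟨_, rfl⟩
  rw [← hw, show (2 * (T : ℝ)) = ((2 * T : ℕ) : ℝ) by push_cast; ring,
    ENNReal.ofReal_mul (Nat.cast_nonneg (2 * T)), ENNReal.ofReal_natCast]

/-- the edge part -/
theorem edge {α : ℕ → Fin N → ℂ} {S : Finset ℕ}
    (hα : ∀ p : ℕ, p.Prime → p ∉ S → ∀ j, ‖α p j‖ ≤ 1) {ε A : ℝ} {Q T J R : ℕ}
    (hG : Good N ε A Q T J R) {q : ℕ} (hq : 1 ≤ q) (hqQ : q ≤ Q) (χ : DirichletCharacter ℂ q)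
    (hχ : χ.IsPrimitive)
    (hE : (⟨q, χ⟩ : Σ q : ℕ, DirichletCharacter ℂ q) ∉ EX (trc α S) ((Real.log Q) ^ A) Q J R T) :
    ∃ B : Set ℝ, volume B ≤ ENNReal.ofReal ((Q : ℝ) ^ (-(ε / 100))) ∧
      ∀ τ : ℝ, |τ| ≤ T → τ ∉ B → τ ∉ divSet (ap (bα (tw α χ) S)) ∧
        ‖bl (bα (tw α χ) S) τ - ∑ p ∈ PY ((Real.log Q) ^ A), lα (tw α χ) S (1 + τ * Complex.I) p‖ ≤
          3 / Real.log Q := by
  have hL16 := hG.hL
  have hL0 : 0 < Real.log Q := by linarith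
  have hb := norm_bα (norm_tw (S := S) hα χ)
  set b := bα (tw α χ) S with hbdef
  set X : ℕ := 2 ^ (J + 1) - 1 with hXdef
  have h2J : 2 ≤ 2 ^ J := by
    calc 2 = 2 ^ 1 := by norm_num
      _ ≤ 2 ^ J := Nat.pow_le_pow_right (by norm_num) hG.hJ
  have hX1 : 2 ^ J ≤ X := by rw [hXdef, pow_succ]; omega
  refine ⟨{τ : ℝ | |τ| ≤ T ∧ 1 / Real.log Q ≤ ‖bl b τ - PS b X τ‖} ∪ divSet (ap b), ?_, ?_⟩
  · refine (measure_union_le _ _).trans ?_
    have h0 : volume (divSet (ap b)) = 0 := measure_eq_zero_iff_ae_notMem.2 (ae_notMem hb)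
    rw [h0, add_zero]
    refine (edge_measure hb (by omega) (by positivity) T).trans (ENNReal.ofReal_le_ofReal ?_)
    refine le_trans ?_ hG.h3
    have h1 : (1 / (1 / Real.log Q)) ^ 2 = (Real.log Q) ^ 2 := by rw [one_div_one_div]
    rw [h1]
    have h2 : (J : ℝ) * Real.log 2 ≤ Real.log X := by
      have h3 : ((2 : ℝ) ^ J) ≤ X := by exact_mod_cast hX1
      have h4 := Real.log_le_log (by positivity) h3
      rwa [Real.log_pow] at h4
    have hJ0 : (0 : ℝ) < J := by exact_mod_cast hG.hJ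
    have hl2 : 0 < Real.log 2 := Real.log_pos (by norm_num)
    have hJl : 0 < (J : ℝ) * Real.log 2 := by positivity
    refine mul_le_mul_of_nonneg_left (mul_le_mul_of_nonneg_left ?_ (by positivity)) (by positivity)
    exact div_le_div_of_nonneg_left (by positivity) hJl h2
  · intro τ hτ hτB
    rw [Set.mem_union, not_or] at hτB
    refine ⟨hτB.2, ?_⟩
    have h1 : ‖bl b τ - PS b X τ‖ < 1 / Real.log Q := by
      by_contra h
      push Not at h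
      exact hτB.1 ⟨hτ, h⟩
    have hs1 : 1 ≤ (1 + τ * Complex.I : ℂ).re := by simp
    have hs2 : (1 + τ * Complex.I : ℂ).re ≤ 2 := by simp
    have hs3 : |(1 + τ * Complex.I : ℂ).im| ≤ T := by simpa using hτ
    have hTS := TS_le (norm_trc hα) hL16 hG.hR hG.hR2 hq hqQ χ hχ hE hs1 hs2 hs3
    have h2 := edge_bound hα χ hG.hy hG.hyJ τ
    have h3 := hG.h2
    have e3 : 3 / Real.log Q = 1 / Real.log Q + (1 / Real.log Q + 1 / Real.log Q) := by ring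
    calc _ = ‖(bl b τ - PS b X τ) +
          (PS b X τ - ∑ p ∈ PY ((Real.log Q) ^ A), lα (tw α χ) S (1 + τ * Complex.I) p)‖ := by
          congr 1; ring
      _ ≤ _ := (norm_add_le _ _).trans (by linarith)

end Pool.Agent.TH933.TE
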