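import Pool.Agent.TH933.TE.E7

/-!
# Eigenvalues of a family of matrices, and the size of the product
-/

set_option autoImplicit false

open Finset Real Filter Topology MeasureTheory
open scoped Classical ENNReal

namespace Pool.Agent.TH933.TE

open Pool.Agent.TH339.MP (PP tm FF bα lα fα hasProd_α bl ap bl_angle norm_bα det_one_sub)
open Pool.Agent.W350.Edge (divSet)

/-- the eigenvalues of a matrix as a function -/
lemma exists_eig {N : ℕ} (B : Matrix (Fin N) (Fin N) ℂ) :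
    ∃ a : Fin N → ℂ, B.charpoly.roots = Multiset.map a Finset.univ.val := by
  have h1 : Multiset.card B.charpoly.roots = N := by
    have h2 := (IsAlgClosed.splits B.charpoly).natDegree_eq_card_roots
    rw [← h2, Matrix.charpoly_natDegree_eq_dim, Fintype.card_fin]
  obtain ⟨l, hl⟩ : ∃ l : List ℂ, (l : Multiset ℂ) = B.charpoly.roots :=
    ⟨B.charpoly.roots.toList, Multiset.coe_toList _⟩
  have h2 : l.length = N := by rw [← h1, ← hl, Multiset.coe_card]
  subst h2
  refine ⟨l.get, ?_⟩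
  rw [Fin.univ_val_map, List.ofFn_get, hl]

/-- numbers from their logarithms -/
lemma size_exp {N : ℕ} {A C₀ L : ℝ} (hA : 3 ≤ A) (hL : 16 ≤ L) {z w : ℂ}
    (hw : ‖w‖ ≤ N * (Real.log (Real.log (L ^ A)) + C₀)) (hz : ‖z - w‖ ≤ 2 / L) :
    ‖Complex.exp z‖ ≤ Real.exp 1 * (A * Real.exp C₀) ^ N * (Real.log L) ^ N ∧
      1 ≤ Real.exp 1 * (A * Real.exp C₀) ^ N * (Real.log L) ^ N * ‖Complex.exp z‖ := by
  have hL0 : 0 < L := by linarith
  have hl : 0 < Real.log L := Real.log_pos (by linarith)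
  have hA0 : 0 < A := by linarith
  have e1 : Real.exp (N * (Real.log (Real.log (L ^ A)) + C₀)) =
      (A * Real.exp C₀) ^ N * (Real.log L) ^ N := by
    rw [Real.exp_nat_mul, Real.exp_add, Real.log_rpow hL0, Real.exp_log (by positivity), ← mul_pow]
    congr 1
    ring
  have h2 : ‖z‖ ≤ 1 + N * (Real.log (Real.log (L ^ A)) + C₀) := by
    have h3 : 2 / L ≤ 1 := by rw [div_le_one hL0]; linarith
    calc ‖z‖ = ‖(z - w) + w‖ := by congr 1; ring
      _ ≤ _ := (norm_add_le _ _).trans (by linarith)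
  have h3 : Real.exp ‖z‖ ≤ Real.exp 1 * (A * Real.exp C₀) ^ N * (Real.log L) ^ N := by
    rw [mul_assoc, ← e1, ← Real.exp_add]
    exact Real.exp_le_exp.2 h2
  have h4 := abs_le.1 (Complex.abs_re_le_norm z)
  rw [Complex.norm_exp]
  constructor
  · exact (Real.exp_le_exp.2 h4.2).trans h3
  · have h5 : 1 ≤ Real.exp ‖z‖ * Real.exp z.re := by
      rw [← Real.exp_add]
      exact Real.one_le_exp (by linarith [h4.1])
    exact h5.trans (mul_le_mul_of_nonneg_right h3 (Real.exp_pos _).le)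

lemma prod_PY (g : ℕ → ℂ) {y : ℝ} (hy : 0 ≤ y) (S : Finset ℕ) :
    ∏ p ∈ PY y, (if (p : ℕ) ∈ S then 1 else g p) =
      ∏ p ∈ (range (⌊y⌋₊ + 1)).filter (fun p => p.Prime ∧ p ∉ S), g p := by
  have h1 : ∏ p ∈ PY y, (if (p : ℕ) ∈ S then 1 else g p) =
      ∏ p ∈ (PY y).filter (fun p : Nat.Primes => (p : ℕ) ∉ S), g p := by
    rw [Finset.prod_filter]
    refine Finset.prod_congr rfl fun p _ => ?_
    by_cases h : (p : ℕ) ∈ S <;> simp [h]
  rw [h1]
  refine Finset.prod_bij (fun p _ => (p : ℕ)) ?_ ?_ ?_ ?_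
  · intro p hp
    rw [mem_filter, mem_PY hy] at hp
    rw [mem_filter, mem_range, Nat.lt_succ_iff]
    exact ⟨Nat.le_floor hp.1, p.2, hp.2⟩
  · intro a _ b _ h
    exact coe_inj h
  · intro n hn
    rw [mem_filter, mem_range, Nat.lt_succ_iff] at hn
    obtain ⟨P, hP⟩ : ∃ P : Nat.Primes, (P : ℕ) = n := ⟨⟨n, hn.2.1⟩, rfl⟩
    refine ⟨P, ?_, hP⟩
    rw [mem_filter, mem_PY hy, hP]
    exact ⟨(Nat.le_floor_iff hy).1 hn.1, hn.2.2⟩
  · intro _ _; rfl

end Pool.Agent.TH933.TE
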